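import Mathlib
import Pool.Agent.Helper23K9.LR.Main

set_option autoImplicit false

open MeasureTheory Set Filter Topology

namespace Pool.Agent.W2helper23.LR1

open Pool.Agent.Helper23K9.LR

/-- `ℝ^d` with the Manhattan distance. -/
abbrev VV (d : ℕ) := PiLp 1 (fun _ : Fin d => ℝ)

variable {d : ℕ}

/-- the point `x` with the `i`-th coordinate replaced by `u` -/
noncomputable def st (x : VV d) (i : Fin d) (u : ℝ) : VV d := WithLp.toLp 1 (Function.update x.ofLp i u)

@[simp] lemma st_same (x : VV d) (i : Fin d) (u : ℝ) : (st x i u) i = u := by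
  unfold st
  simp

@[simp] lemma st_ne (x : VV d) {i j : Fin d} (h : j ≠ i) (u : ℝ) : (st x i u) j = x j := by
  unfold st
  simp [h]

lemma ext' {x y : VV d} (h : ∀ i, x i = y i) : x = y := by
  ext i
  exact h i

@[simp] lemma st_self (x : VV d) (i : Fin d) : st x i (x i) = x := by
  apply ext'
  intro j
  by_cases h : j = i
  · subst h; simp
  · simp [h]

@[simp] lemma st_st (x : VV d) (i : Fin d) (u v : ℝ) : st (st x i u) i v = st x i v := by
  apply ext'
  intro j
  by_cases h : j = i
  · subst h; simp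
  · simp [h]

lemma st_comm (x : VV d) {i j : Fin d} (h : i ≠ j) (u v : ℝ) : st (st x i u) j v = st (st x j v) i u := by
  apply ext'
  intro k
  by_cases h1 : k = i
  · subst h1
    rw [st_ne _ h, st_same, st_same]
  · by_cases h2 : k = j
    · subst h2
      rw [st_same, st_ne _ h1, st_same]
    · rw [st_ne _ h2, st_ne _ h1, st_ne _ h1, st_ne _ h2]

lemma dist_l1 (x y : VV d) : dist x y = ∑ i, |x i - y i| := by
  rw [PiLp.dist_eq_of_L1]
  rfl

lemma dist_st (x : VV d) (i : Fin d) (u v : ℝ) : dist (st x i u) (st x i v) = |u - v| := by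
  rw [dist_l1, Finset.sum_eq_single i]
  · simp
  · intro j _ hj
    rw [st_ne _ hj, st_ne _ hj, sub_self, abs_zero]
  · intro h
    exact absurd (Finset.mem_univ i) h

lemma dist_st_left (x : VV d) (i : Fin d) (u : ℝ) : dist (st x i u) x = |u - x i| := by
  have := dist_st x i u (x i)
  rwa [st_self] at this

lemma dist_st_two (x : VV d) {i j : Fin d} (h : i ≠ j) (u v u' v' : ℝ) :
    dist (st (st x i u) j v) (st (st x i u') j v') ≤ |u - u'| + |v - v'| := by
  calc dist (st (st x i u) j v) (st (st x i u') j v')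
      ≤ dist (st (st x i u) j v) (st (st x i u) j v') + dist (st (st x i u) j v') (st (st x i u') j v') :=
        dist_triangle _ _ _
    _ = |v - v'| + |u - u'| := by
        rw [dist_st, st_comm x h u v', st_comm x h u' v', dist_st]
    _ = |u - u'| + |v - v'| := by ring

/-- moving one coordinate at a time -/
lemma coord_bound {f : VV d → ℝ} (K : Fin d → ℝ)
    (h : ∀ x i u v, |f (st x i u) - f (st x i v)| ≤ K i * |u - v|) (x y : VV d) :
    |f x - f y| ≤ ∑ i, K i * |x i - y i| := by
  classical
  have key : ∀ s : Finset (Fin d), |f (WithLp.toLp 1 (fun i => if i ∈ s then x i else y i)) - f y| ≤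
      ∑ i ∈ s, K i * |x i - y i| := by
    intro s
    induction s using Finset.induction_on with
    | empty =>
      simp
    | insert i s hi ih =>
      rw [Finset.sum_insert hi]
      set w : VV d := WithLp.toLp 1 (fun j => if j ∈ s then x j else y j) with hw
      have h1 : (WithLp.toLp 1 (fun j => if j ∈ insert i s then x j else y j) : VV d) = st w i (x i) := by
        apply ext'
        intro j
        by_cases hj : j = i
        · subst hj; simp
        · rw [st_ne _ hj, hw]; simp [hj]
      have h2 : st w i (y i) = w := by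
        have : w i = y i := by rw [hw]; simp [hi]
        rw [← this, st_self]
      rw [h1]
      have h3 := h w i (x i) (y i)
      rw [h2] at h3
      calc |f (st w i (x i)) - f y| ≤ |f (st w i (x i)) - f w| + |f w - f y| := abs_sub_le _ _ _
        _ ≤ K i * |x i - y i| + ∑ j ∈ s, K j * |x j - y j| := add_le_add h3 ih
  have h1 := key Finset.univ
  have h2 : (WithLp.toLp 1 (fun i => if i ∈ (Finset.univ : Finset (Fin d)) then x i else y i) : VV d) = x := by
    apply ext'
    intro j
    simp
  rwa [h2] at h1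

lemma LK_of_coord {f : VV d → ℝ} {K : ℝ}
    (h : ∀ x i u v, |f (st x i u) - f (st x i v)| ≤ K * |u - v|) : LK K f := by
  intro x y
  refine (le_abs_self _).trans ((coord_bound (fun _ => K) h x y).trans (le_of_eq ?_))
  rw [dist_l1, Finset.mul_sum]

lemma eq_of_indep {f : VV d → ℝ} (i : Fin d) {K : ℝ}
    (h : ∀ x u v, |f (st x i u) - f (st x i v)| ≤ K * |u - v|)
    (h0 : ∀ j, j ≠ i → ∀ x u v, f (st x j u) = f (st x j v)) {x y : VV d} (hxy : x i = y i) : f x = f y := by
  classical
  have h1 := coord_bound (f := f) (fun j => if j = i then K else 0) (by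
    intro x j u v
    by_cases hj : j = i
    · subst hj; simpa using h x u v
    · simp only [hj, if_false]
      rw [h0 j hj x u v]
      simp) x y
  have h2 : ∑ j, (if j = i then K else 0) * |x j - y j| = 0 := by
    apply Finset.sum_eq_zero
    intro j _
    by_cases hj : j = i
    · subst hj; rw [hxy]; simp
    · simp [hj]
  rw [h2] at h1
  exact sub_eq_zero.1 (abs_eq_zero.1 (le_antisymm h1 (abs_nonneg _)))

lemma LK_st_line {f : VV d → ℝ} {K : ℝ} (h : LK K f) (x : VV d) (i : Fin d) : LK K (fun u : ℝ => f (st x i u)) := by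
  intro u v
  have := h (st x i u) (st x i v)
  rwa [dist_st, ← Real.dist_eq] at this

lemma LK_coord (i : Fin d) : LK 1 (fun x : VV d => x i) := by
  intro x y
  beta_reduce
  rw [one_mul, dist_l1]
  calc x i - y i ≤ |x i - y i| := le_abs_self _
    _ ≤ ∑ j, |x j - y j| := Finset.single_le_sum (f := fun j => |x j - y j|) (fun j _ => abs_nonneg _) (Finset.mem_univ i)

lemma continuous_st (x : VV d) (i : Fin d) : Continuous (fun u : ℝ => st x i u) := by
  apply LipschitzWith.continuous (K := 1)
  apply LipschitzWith.of_dist_le_mul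
  intro u v
  rw [dist_st]
  simp [Real.dist_eq]

lemma continuous_st2 {i j : Fin d} (x : VV d) (h : i ≠ j) : Continuous (fun p : ℝ × ℝ => st (st x i p.1) j p.2) := by
  apply LipschitzWith.continuous (K := 2)
  apply LipschitzWith.of_dist_le_mul
  intro p q
  refine (dist_st_two x h _ _ _ _).trans ?_
  have h1 : |p.1 - q.1| ≤ dist p q := by
    rw [Prod.dist_eq, Real.dist_eq]; exact le_max_left _ _
  have h2 : |p.2 - q.2| ≤ dist p q := by
    rw [Prod.dist_eq, Real.dist_eq p.2 q.2]; exact le_max_right _ _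
  push_cast
  linarith

section
variable (S : Rel (VV d))

/-- the image of the `i`-th coordinate, normalised at the origin -/
noncomputable def bb (i : Fin d) (x : VV d) : ℝ :=
  Classical.choose (S.tot (fun x : VV d => x i) ⟨1, LK_coord i⟩) x -
    Classical.choose (S.tot (fun x : VV d => x i) ⟨1, LK_coord i⟩) 0

lemma R_bb (i : Fin d) : S.R (fun x : VV d => x i) (bb S i) := by
  refine S.congr (Classical.choose_spec (S.tot (fun x : VV d => x i) ⟨1, LK_coord i⟩))
    (fun _ _ => rfl) (fun x y => ?_)
  unfold bb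
  ring

lemma bb_zero (i : Fin d) : bb S i 0 = 0 := by unfold bb; ring

lemma R_zero : S.R (fun _ => (0 : ℝ)) (fun _ => (0 : ℝ)) := S.R_const 0 0

lemma R_sum (c : Fin d → ℝ) : S.R (fun x : VV d => ∑ i, c i * x i) (fun y => ∑ i, c i * bb S i y) := by
  classical
  have key : ∀ s : Finset (Fin d), S.R (fun x : VV d => ∑ i ∈ s, c i * x i) (fun y => ∑ i ∈ s, c i * bb S i y) := by
    intro s
    induction s using Finset.induction_on with
    | empty => simpa using R_zero S
    | insert i s hi ih =>
      simp only [Finset.sum_insert hi]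
      exact Rel.add (Rel.smul (R_bb S i) (c i)) ih
  exact key _

lemma sum_abs_bb (y y' : VV d) : ∑ i, |bb S i y - bb S i y'| ≤ dist y y' := by
  set c : Fin d → ℝ := fun i => if 0 ≤ bb S i y - bb S i y' then 1 else -1 with hc
  have hc1 : ∀ i, |c i| ≤ 1 := by
    intro i
    rw [hc]
    simp only
    split_ifs <;> simp
  have h1 : LK 1 (fun x : VV d => ∑ i, c i * x i) := by
    intro x x'
    beta_reduce
    rw [← Finset.sum_sub_distrib, one_mul, dist_l1]
    apply Finset.sum_le_sum
    intro i _
    rw [← mul_sub]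
    calc c i * (x i - x' i) ≤ |c i * (x i - x' i)| := le_abs_self _
      _ = |c i| * |x i - x' i| := abs_mul _ _
      _ ≤ 1 * |x i - x' i| := mul_le_mul_of_nonneg_right (hc1 i) (abs_nonneg _)
      _ = |x i - x' i| := one_mul _
  have h2 := (S.iso (R_sum S c) 1).1 h1 y y'
  beta_reduce at h2
  rw [← Finset.sum_sub_distrib, one_mul] at h2
  refine le_trans (le_of_eq ?_) h2
  apply Finset.sum_congr rfl
  intro i _
  rw [← mul_sub, hc]
  simp only
  split_ifs with h3
  · rw [abs_of_nonneg h3, one_mul]
  · push Not at h3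
    rw [abs_of_neg h3]; ring

lemma two_abs_bb {i j : Fin d} (hij : i ≠ j) (y y' : VV d) :
    |bb S i y - bb S i y'| + |bb S j y - bb S j y'| ≤ dist y y' := by
  classical
  refine le_trans ?_ (sum_abs_bb S y y')
  rw [← Finset.sum_pair (f := fun k => |bb S k y - bb S k y'|) hij]
  exact Finset.sum_le_sum_of_subset_of_nonneg (Finset.subset_univ _) (fun _ _ _ => abs_nonneg _)

lemma abs_bb (i : Fin d) (y y' : VV d) : |bb S i y - bb S i y'| ≤ dist y y' := by
  refine le_trans ?_ (sum_abs_bb S y y')
  exact Finset.single_le_sum (f := fun j => |bb S j y - bb S j y'|) (fun j _ => abs_nonneg _) (Finset.mem_univ i)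

lemma LK_bb (i : Fin d) : LK 1 (bb S i) := by
  intro x y
  rw [one_mul]
  exact (le_abs_self _).trans (abs_bb S i x y)

lemma LK_comp_bb {K : ℝ} (hK : 0 ≤ K) {φ : ℝ → ℝ} (h : LK K φ) (i : Fin d) : LK K (fun y => φ (bb S i y)) := by
  intro x y
  have h1 := h (bb S i x) (bb S i y)
  rw [Real.dist_eq] at h1
  exact h1.trans (mul_le_mul_of_nonneg_left (abs_bb S i x y) hK)

lemma LK_two_bb {K : ℝ} (hK : 0 ≤ K) {φ ψ : ℝ → ℝ} (h : LK K φ) (h' : LK K ψ) {i j : Fin d} (hij : i ≠ j) :
    LK K (fun y => φ (bb S i y) + ψ (bb S j y)) := by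
  intro x y
  have h1 := h (bb S i x) (bb S i y)
  have h2 := h' (bb S j x) (bb S j y)
  rw [Real.dist_eq] at h1 h2
  have h3 := mul_le_mul_of_nonneg_left (two_abs_bb S hij x y) hK
  beta_reduce
  rw [mul_add] at h3
  linarith

end

/-- sums of functions of two different coordinates -/
lemma LK_two_coord {K : ℝ} (hK : 0 ≤ K) {φ ψ : ℝ → ℝ} (h : LK K φ) (h' : LK K ψ) {i j : Fin d} (hij : i ≠ j) :
    LK K (fun x : VV d => φ (x i) + ψ (x j)) := by
  intro x y
  have h1 := h (x i) (y i)
  have h2 := h' (x j) (y j)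
  rw [Real.dist_eq] at h1 h2
  have h3 : |x i - y i| + |x j - y j| ≤ dist x y := by
    classical
    rw [dist_l1, ← Finset.sum_pair (f := fun k => |x k - y k|) hij]
    exact Finset.sum_le_sum_of_subset_of_nonneg (Finset.subset_univ _) (fun _ _ _ => abs_nonneg _)
  have h4 := mul_le_mul_of_nonneg_left h3 hK
  beta_reduce
  rw [mul_add] at h4
  linarith

lemma LK_comp_coord {K : ℝ} (hK : 0 ≤ K) {φ : ℝ → ℝ} (h : LK K φ) (i : Fin d) : LK K (fun x : VV d => φ (x i)) := by
  intro x y
  have h1 := h (x i) (y i)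
  have h2 := (LK_coord i).abs x y
  rw [Real.dist_eq] at h1
  rw [one_mul] at h2
  exact h1.trans (mul_le_mul_of_nonneg_left h2 hK)

lemma LK_of_comp_coord {K : ℝ} {φ : ℝ → ℝ} (i : Fin d) (h : LK K (fun x : VV d => φ (x i))) : LK K φ := by
  intro u v
  have h1 := h (st 0 i u) (st 0 i v)
  simp only [st_same, dist_st] at h1
  rwa [Real.dist_eq]

lemma LK_lin {K c : ℝ} (h : |c| ≤ K) : LK K (fun u : ℝ => c * u) := by
  intro u v
  rw [Real.dist_eq, ← mul_sub]
  calc c * (u - v) ≤ |c * (u - v)| := le_abs_self _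
    _ = |c| * |u - v| := abs_mul _ _
    _ ≤ K * |u - v| := mul_le_mul_of_nonneg_right h (abs_nonneg _)

/-- The transversal increments are small. -/
lemma small_incr {f : VV d → ℝ} {K ε : ℝ} (j : Fin d) (h1 : LK (K + ε) (fun x : VV d => K * x j + f x))
    (h2 : LK (K + ε) (fun x : VV d => -(K * x j) + f x)) (x : VV d) (u v : ℝ) :
    |f (st x j u) - f (st x j v)| ≤ ε * |u - v| := by
  have key : ∀ u v : ℝ, v ≤ u → |f (st x j u) - f (st x j v)| ≤ ε * |u - v| := by
    intro u v huv
    have e1 := h1 (st x j u) (st x j v)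
    have e2 := h2 (st x j v) (st x j u)
    simp only [st_same, dist_st] at e1 e2
    rw [abs_sub_comm v u] at e2
    rw [abs_of_nonneg (sub_nonneg.2 huv)] at e1 e2 ⊢
    rw [abs_le]
    constructor <;> nlinarith
  rcases le_total v u with h | h
  · exact key u v h
  · rw [abs_sub_comm, abs_sub_comm u v]
    exact key v u h

/-- The preimage of a function of `bb i` is a function of the `i`-th coordinate. -/
theorem exists_ridge (S : Rel (VV d)) {K : ℝ} {φ : ℝ → ℝ} (h : LK K φ) (i : Fin d) :
    ∃ F : ℝ → ℝ, S.R (fun x : VV d => F (x i)) (fun y => φ (bb S i y)) := by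
  wlog hK : 0 ≤ K generalizing K
  · exact this (K := max K 0) (h.mono (le_max_left _ _)) (le_max_right _ _)
  obtain ⟨f, hf⟩ := S.surj _ ⟨K, LK_comp_bb S hK h i⟩
  have hfK : LK K f := (S.iso hf K).2 (LK_comp_bb S hK h i)
  refine ⟨fun u => f (st 0 i u), S.congr hf (fun x y => ?_) (fun _ _ => rfl)⟩
  have h1 : ∀ z : VV d, f z = f (st 0 i (z i)) := by
    intro z
    apply eq_of_indep i (K := K)
    · intro x u v
      have := (LK_st_line hfK x i).abs u v
      rwa [Real.dist_eq] at this
    · intro j hj x u v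
      have e1 : LK (K + 0) (fun x : VV d => K * x j + f x) := by
        rw [add_zero]
        refine (S.iso (Rel.add (Rel.smul (R_bb S j) K) hf) K).2 ?_
        exact LK_two_bb S hK (LK_lin (abs_of_nonneg hK).le) h hj
      have e2 : LK (K + 0) (fun x : VV d => -(K * x j) + f x) := by
        rw [add_zero]
        refine (S.iso (Rel.add (Rel.neg (Rel.smul (R_bb S j) K)) hf) K).2 ?_
        have := LK_two_bb S hK (φ := fun u => -K * u) (LK_lin (by rw [abs_neg, abs_of_nonneg hK])) h hj
        refine fun x y => ?_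
        have := this x y
        beta_reduce at this ⊢
        linarith
      have := small_incr j e1 e2 x u v
      rw [zero_mul] at this
      exact sub_eq_zero.1 (abs_eq_zero.1 (le_antisymm this (abs_nonneg _)))
    · simp
  rw [h1 x, h1 y]

end Pool.Agent.W2helper23.LR1
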