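import Mathlib
import Pool.Agent.W2helper23.LR1.Base

set_option autoImplicit false

open MeasureTheory Set Filter Topology

namespace Pool.Agent.W2helper23.LR1

open Pool.Agent.Helper23K9.LR
open Pool.Agent.Helper23K9.LR.Rel (hinge LK_hinge_real ae_exists_one)

variable {d : ℕ} (S : Rel (VV d))

lemma slope_transfer (i : Fin d) {G φ : ℝ → ℝ}
    (h : S.R (fun x : VV d => G (x i)) (fun x => φ (bb S i x))) (hφ : Slope φ) : Slope G := by
  apply slope_of_half
  apply LK_of_comp_coord i
  have h1 := S.lin h (R_bb S i) 1 (-(1 / 2))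
  have h2 : LK (1 / 2) (fun x => φ (bb S i x) - 1 / 2 * bb S i x) :=
    LK_comp_bb S (by norm_num : (0 : ℝ) ≤ 1 / 2) (half_of_slope hφ) i
  have h3 : (fun x => 1 * φ (bb S i x) + -(1 / 2) * bb S i x) = fun x => φ (bb S i x) - 1 / 2 * bb S i x := by
    funext x; ring
  have h4 : (fun x : VV d => 1 * G (x i) + -(1 / 2) * x i) =
      fun x => G (x i) - 1 / 2 * x i := by
    funext x; ring
  rw [h3, h4] at h1
  exact (S.iso h1 _).2 h2

/-- `D`-property: gluing along a level set -/
lemma glue {b h : VV d → ℝ} {t L : ℝ} (hb : Continuous b) (h1 : LK L (fun x => h x + hinge t (b x)))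
    (h2 : LK L (fun x => h x + (b x - hinge t (b x)))) : LK L (fun x => h x + b x) := by
  have key : ∀ x y, t ≤ b x → b y ≤ t → |(h x + b x) - (h y + b y)| ≤ L * dist x y := by
    intro x y hx hy
    -- a point on the segment
    obtain ⟨z, hz, hzt⟩ : ∃ z ∈ segment ℝ y x, b z = t := by
      have h3 : IsPreconnected (segment ℝ y x) := (convex_segment y x).isPreconnected
      have h4 := h3.intermediate_value (left_mem_segment ℝ y x) (right_mem_segment ℝ y x) hb.continuousOn
      obtain ⟨z, hz, hzt⟩ := h4 ⟨hy, hx⟩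
      exact ⟨z, hz, hzt⟩
    have h3 := h1.abs x z
    have h4 := h2.abs z y
    have h5 : dist x z + dist z y = dist x y := by
      rw [dist_comm x z, dist_comm z y, dist_comm x y, add_comm]
      exact dist_add_dist_of_mem_segment hz
    have e1 : hinge t (b x) = b x - t := by unfold hinge; rw [max_eq_left (by linarith)]
    have e2 : hinge t (b z) = 0 := by unfold hinge; rw [hzt]; simp
    have e3 : hinge t (b y) = 0 := by unfold hinge; rw [max_eq_right (by linarith)]
    rw [e1, e2] at h3
    rw [e2, e3] at h4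
    calc |(h x + b x) - (h y + b y)| = |(h x + (b x - t) - (h z + 0)) + (h z + (b z - 0) - (h y + (b y - 0)))| := by
          rw [hzt]; congr 1; ring
      _ ≤ L * dist x z + L * dist z y := (abs_add_le _ _).trans (add_le_add h3 h4)
      _ = L * dist x y := by rw [← h5]; ring
  intro x y
  beta_reduce
  rcases le_total t (b x) with hx | hx <;> rcases le_total t (b y) with hy | hy
  · have h3 := h1 x y
    beta_reduce at h3
    unfold hinge at h3
    rw [max_eq_left (by linarith), max_eq_left (by linarith)] at h3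
    linarith
  · exact (le_abs_self _).trans (key x y hx hy)
  · have := key y x hy hx
    rw [abs_sub_comm, dist_comm] at this
    exact (le_abs_self _).trans this
  · have h3 := h2 x y
    beta_reduce at h3
    unfold hinge at h3
    rw [max_eq_right (by linarith), max_eq_right (by linarith)] at h3
    linarith

/-- the slopes are `0` or `1` -/
lemma slope01 (i : Fin d) {t : ℝ} {F : ℝ → ℝ}
    (hF : S.R (fun x : VV d => F (x i)) (fun x => hinge t (bb S i x))) :
    ∀ᵐ u, deriv F u = 0 ∨ deriv F u = 1 := by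
  apply deriv_zero_or_one (slope_transfer S i hF (slope_hinge t))
  intro H L hH h1 h2
  obtain ⟨K, hK⟩ := hH
  have hK0 : LK |K| (fun x : VV d => H (x i)) :=
    LK_comp_coord (abs_nonneg K) (hK.mono (le_abs_self K)) i
  obtain ⟨h, hh⟩ := S.tot _ ⟨_, hK0⟩
  have hL : 0 ≤ L := by
    have := h1 1 0
    have h3 := h1 0 1
    rw [Real.dist_eq] at this h3
    norm_num at this h3
    linarith
  have g1 : LK L (fun x => h x + hinge t (bb S i x)) :=
    (S.iso (S.add hh hF) L).1 (LK_comp_coord hL h1 i)
  have g2 : LK L (fun x => h x + (bb S i x - hinge t (bb S i x))) := by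
    refine (S.iso (S.add hh (S.sub (R_bb S i) hF)) L).1 ?_
    have := LK_comp_coord hL h2 i
    have e : (fun x : VV d => H (x i) + (x i - F (x i))) =
      fun x => H (x i) + x i - F (x i) := by funext x; ring
    rwa [e]
  have g3 := glue (LK_bb S i).continuous g1 g2
  exact LK_of_comp_coord (φ := fun u => H u + u) i ((S.iso (S.add hh (R_bb S i)) L).2 g3)

/-- Local data for the `i`-th coordinate. -/
structure Data (i : Fin d) where
  F : ℝ → ℝ → ℝ
  hF : ∀ t, S.R (fun x : VV d => F t (x i)) (fun x => hinge t (bb S i x))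
  B : ℝ → ℝ
  hB : Measurable B
  D : Set ℝ
  hD : ∀ᵐ u, u ∈ D
  one : ∀ u ∈ D, ∀ q : ℚ, (q : ℝ) < B u → HasDerivAt (F q) 1 u
  zero : ∀ u ∈ D, ∀ q : ℚ, B u < (q : ℝ) → HasDerivAt (F q) 0 u

theorem exists_data (i : Fin d) : Nonempty (Data S i) := by
  choose F hF using fun t => exists_ridge S (LK_hinge_real t) i
  have hS : ∀ t, Slope (F t) := fun t => slope_transfer S i (hF t) (slope_hinge t)
  have hSd : ∀ s t, s ≤ t → Slope (fun u => F s u - F t u) := fun s t hst =>
    slope_transfer S i (G := fun u => F s u - F t u) (φ := fun u => hinge s u - hinge t u)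
      (Rel.sub (hF s) (hF t)) (slope_clip hst)
  have h01 : ∀ t, ∀ᵐ u, deriv (F t) u = 0 ∨ deriv (F t) u = 1 := fun t => slope01 S i (hF t)
  -- limits
  have lim1 : ∀ u v, Tendsto (fun n : ℕ => F (-(n : ℝ)) u - F (-(n : ℝ)) v) atTop (𝓝 (u - v)) := by
    intro u v
    have h1 := S.cont' (fun n x => F (-(n : ℝ)) (x i)) (fun n x => hinge (-(n : ℝ)) (bb S i x))
      (fun x => x i) (bb S i) 1 (fun n => hF _) (fun n => LK_comp_coord zero_le_one (hS (-(n : ℝ))).LK i)
      (R_bb S i) (fun x y => by
          apply tendsto_const_nhds.congr'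
          obtain ⟨N, hN⟩ := exists_nat_ge (max |bb S i x| |bb S i y|)
          filter_upwards [eventually_ge_atTop N] with n hn
          have hn' : (N : ℝ) ≤ n := by exact_mod_cast hn
          have e1 : -(n : ℝ) ≤ bb S i x := by
            have := (abs_le.1 ((le_max_left _ _).trans (hN.trans hn'))).1
            exact this
          have e2 : -(n : ℝ) ≤ bb S i y := by
            have := (abs_le.1 ((le_max_right _ _).trans (hN.trans hn'))).1
            exact this
          unfold hinge
          rw [max_eq_left (by linarith), max_eq_left (by linarith)]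
          ring) (st 0 i u) (st 0 i v)
    simp only [st_same] at h1
    exact h1
  have lim2 : ∀ u v, Tendsto (fun n : ℕ => F (n : ℝ) u - F (n : ℝ) v) atTop (𝓝 0) := by
    intro u v
    have h1 := S.cont' (fun n x => F (n : ℝ) (x i)) (fun n x => hinge (n : ℝ) (bb S i x))
      (fun _ => 0) (fun _ => 0) 1 (fun n => hF _) (fun n => LK_comp_coord zero_le_one (hS (n : ℝ)).LK i)
      (R_zero S) (fun x y => by
          apply tendsto_const_nhds.congr'
          obtain ⟨N, hN⟩ := exists_nat_ge (max |bb S i x| |bb S i y|)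
          filter_upwards [eventually_ge_atTop N] with n hn
          have hn' : (N : ℝ) ≤ n := by exact_mod_cast hn
          have e1 : bb S i x ≤ n := (abs_le.1 ((le_max_left _ _).trans (hN.trans hn'))).2
          have e2 : bb S i y ≤ n := (abs_le.1 ((le_max_right _ _).trans (hN.trans hn'))).2
          unfold hinge
          rw [max_eq_right (by linarith), max_eq_right (by linarith)]) (st 0 i u) (st 0 i v)
    simp only [st_same, sub_zero] at h1
    exact h1
  have hone := ae_exists_one (F := fun n : ℕ => F (-(n : ℝ))) (fun n => hS _) (fun n => h01 _) lim1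
  have hzero : ∀ᵐ u, ∃ n : ℕ, deriv (F (n : ℝ)) u = 0 := by
    have h1 := ae_exists_one (F := fun (n : ℕ) u => u - F (n : ℝ) u)
      (fun n => fun u v huv => by
        have := hS (n : ℝ) u v huv
        beta_reduce
        constructor <;> linarith [this.1, this.2])
      (fun n => by
        filter_upwards [h01 (n : ℝ), (hS (n : ℝ)).ae_hasDerivAt] with u h1 h2
        have h3 : HasDerivAt (fun u => u - F (n : ℝ) u) (1 - deriv (F (n : ℝ)) u) u :=
          (hasDerivAt_id u).sub h2
        rw [h3.deriv]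
        rcases h1 with h1 | h1
        · right; rw [h1]; ring
        · left; rw [h1]; ring)
      (fun u v => by
        have := (tendsto_const_nhds (x := u - v)).sub (lim2 u v)
        rw [sub_zero] at this
        refine this.congr (fun n => ?_)
        ring)
    have h2 : ∀ᵐ u, ∀ n : ℕ, HasDerivAt (F (n : ℝ)) (deriv (F (n : ℝ)) u) u := by
      rw [ae_all_iff]; intro n; exact (hS (n : ℝ)).ae_hasDerivAt
    filter_upwards [h1, h2] with u h3 h4
    obtain ⟨n, hn⟩ := h3
    refine ⟨n, ?_⟩
    have h5 : HasDerivAt (fun u => u - F (n : ℝ) u) (1 - deriv (F (n : ℝ)) u) u :=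
      (hasDerivAt_id u).sub (h4 n)
    rw [h5.deriv] at hn
    linarith
  -- the good set
  have hgood : ∀ᵐ u, (∀ q : ℚ, HasDerivAt (F q) (deriv (F q) u) u ∧
      (deriv (F q) u = 0 ∨ deriv (F q) u = 1)) ∧ (∃ n : ℕ, deriv (F (-(n : ℝ))) u = 1) ∧
      ∃ n : ℕ, deriv (F (n : ℝ)) u = 0 := by
    have h1 : ∀ᵐ u, ∀ q : ℚ, HasDerivAt (F q) (deriv (F q) u) u ∧
      (deriv (F q) u = 0 ∨ deriv (F q) u = 1) := by
      rw [ae_all_iff]; intro q; exact ((hS q).ae_hasDerivAt).and (h01 q)
    exact h1.and (hone.and hzero)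
  obtain ⟨D, hDm, hDg, hDn⟩ : ∃ D : Set ℝ, MeasurableSet D ∧ (∀ u ∈ D, (∀ q : ℚ, HasDerivAt (F q) (deriv (F q) u) u ∧
      (deriv (F q) u = 0 ∨ deriv (F q) u = 1)) ∧ (∃ n : ℕ, deriv (F (-(n : ℝ))) u = 1) ∧
      ∃ n : ℕ, deriv (F (n : ℝ)) u = 0) ∧ ∀ᵐ u, u ∈ D := by
    obtain ⟨T, hT1, hT2, hT3⟩ := exists_measurable_superset_of_null (ae_iff.1 hgood)
    refine ⟨Tᶜ, hT2.compl, ?_, ?_⟩
    · intro u hu
      by_contra hcon
      exact hu (hT1 hcon)
    · rw [ae_iff]
      simpa using hT3
  -- monotonicity
  have hmono : ∀ u ∈ D, ∀ q r : ℚ, q ≤ r → deriv (F r) u ≤ deriv (F q) u := by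
    intro u hu q r hqr
    have h1 := ((hDg u hu).1 q).1
    have h2 := ((hDg u hu).1 r).1
    have h3 : HasDerivAt (fun u => F q u - F r u) (deriv (F q) u - deriv (F r) u) u := h1.sub h2
    have h4 := (hSd q r (by exact_mod_cast hqr)).deriv_nonneg u
    rw [h3.deriv] at h4
    linarith
  classical
  set A : ℝ → Set ℝ := fun u => {t | ∃ q : ℚ, (q : ℝ) = t ∧ deriv (F q) u = 1} with hA
  have hAne : ∀ u ∈ D, (A u).Nonempty := by
    intro u hu
    obtain ⟨n, hn⟩ := (hDg u hu).2.1
    refine ⟨-(n : ℝ), -(n : ℚ), by push_cast; rfl, ?_⟩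
    push_cast
    exact hn
  have hAbd : ∀ u ∈ D, BddAbove (A u) := by
    intro u hu
    obtain ⟨n, hn⟩ := (hDg u hu).2.2
    refine ⟨n, ?_⟩
    rintro t ⟨q, rfl, hq⟩
    by_contra hcon
    push Not at hcon
    have h1 := hmono u hu (n : ℚ) q (by
      have : ((n : ℚ) : ℝ) ≤ (q : ℝ) := by push_cast; exact hcon.le
      exact_mod_cast this)
    push_cast at h1
    rw [hq, hn] at h1
    linarith
  set B : ℝ → ℝ := fun u => if u ∈ D then sSup (A u) else 0 with hB
  have hBm : Measurable B := by
    apply measurable_of_Ioi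
    intro a
    have : B ⁻¹' Ioi a = (D ∩ ⋃ q : {q : ℚ // a < (q : ℝ)}, {u | deriv (F (q : ℚ)) u = 1}) ∪
        (if a < 0 then Dᶜ else ∅) := by
      ext u
      rw [mem_preimage, mem_Ioi, hB]
      simp only [mem_union, mem_inter_iff, mem_iUnion, mem_setOf_eq]
      by_cases hu : u ∈ D
      · rw [if_pos hu]
        constructor
        · intro h
          left
          refine ⟨hu, ?_⟩
          obtain ⟨t, ⟨q, rfl, hq⟩, hat⟩ := exists_lt_of_lt_csSup (hAne u hu) h
          exact ⟨⟨q, hat⟩, hq⟩
        · rintro (⟨_, ⟨q, hq⟩, hq1⟩ | h)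
          · exact hq.trans_le (le_csSup (hAbd u hu) ⟨q, rfl, hq1⟩)
          · exfalso
            split_ifs at h
            · exact h hu
            · exact h
      · rw [if_neg hu]
        constructor
        · intro h
          right
          rw [if_pos h]
          exact hu
        · rintro (⟨h, _⟩ | h)
          · exact absurd h hu
          · split_ifs at h with h1
            · exact h1
            · exact absurd h (notMem_empty u)
    rw [this]
    apply MeasurableSet.union
    · apply hDm.inter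
      apply MeasurableSet.iUnion
      intro q
      exact measurableSet_eq_fun (measurable_deriv _) measurable_const
    · split_ifs
      · exact hDm.compl
      · exact MeasurableSet.empty
  refine ⟨⟨F, hF, B, hBm, D, hDn, ?_, ?_⟩⟩
  · intro u hu q hq
    rw [hB] at hq
    simp only [if_pos hu] at hq
    obtain ⟨t, ⟨r, rfl, hr⟩, hqr⟩ := exists_lt_of_lt_csSup (hAne u hu) hq
    have h1 := hmono u hu q r (by exact_mod_cast hqr.le)
    have h2 := (hDg u hu).1 q
    rcases h2.2 with h3 | h3
    · rw [h3, hr] at h1; linarith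
    · rw [← h3]; exact h2.1
  · intro u hu q hq
    rw [hB] at hq
    simp only [if_pos hu] at hq
    have h2 := (hDg u hu).1 q
    rcases h2.2 with h3 | h3
    · rw [← h3]; exact h2.1
    · exfalso
      have := le_csSup (hAbd u hu) (show (q : ℝ) ∈ A u from ⟨q, rfl, h3⟩)
      linarith


end Pool.Agent.W2helper23.LR1
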