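import Mathlib
import Pool.Agent.W2helper23.LR1.Data1

set_option autoImplicit false

open MeasureTheory Set Filter Topology

namespace Pool.Agent.W2helper23.LR1

open Pool.Agent.Helper23K9.LR
open Pool.Agent.Helper23K9.LR.Rel (hinge LK_hinge_real)

/-- a Lipschitz multiplier with values in `[0, 1]` -/
structure Cut {M : Type*} [PseudoMetricSpace M] (a : M → ℝ) (L : ℝ) : Prop where
  nn : ∀ y, 0 ≤ a y
  le : ∀ y, a y ≤ 1
  lk : LK L a
  L0 : 0 ≤ L

/-- The multiplier inequality. -/
lemma mult_ineq {M : Type*} [PseudoMetricSpace M] {a h g : M → ℝ} {L K δ : ℝ} (ha : Cut a L)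
    (hδ : ∀ y, a y ≠ 0 → |h y| ≤ δ) (hδ0 : 0 ≤ δ) (h1 : LK K g) (h2 : LK K (fun y => g y + h y)) :
    LK (K + L * δ) (fun y => g y + a y * h y) := by
  intro y y'
  beta_reduce
  have e1 := h1 y y'
  have e2 := h2 y y'
  have e3 := ha.lk.abs y y'
  beta_reduce at e2
  have hD : 0 ≤ dist y y' := dist_nonneg
  have key : ∀ w : ℝ, |w| ≤ δ → (a y - a y') * w ≤ L * δ * dist y y' := by
    intro w hw
    calc (a y - a y') * w ≤ |(a y - a y') * w| := le_abs_self _
      _ = |a y - a y'| * |w| := abs_mul _ _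
      _ ≤ (L * dist y y') * δ := mul_le_mul e3 hw (abs_nonneg _) (mul_nonneg ha.L0 hD)
      _ = L * δ * dist y y' := by ring
  by_cases hy : a y = 0
  · by_cases hy' : a y' = 0
    · rw [hy, hy']
      have : 0 ≤ L * δ * dist y y' := mul_nonneg (mul_nonneg ha.L0 hδ0) hD
      nlinarith
    · have k := key (h y') (hδ y' hy')
      rw [hy] at k ⊢
      nlinarith
  · have k := key (h y) (hδ y hy)
    have k1 := mul_le_mul_of_nonneg_left e1 (sub_nonneg.2 (ha.le y'))
    have k2 := mul_le_mul_of_nonneg_left e2 (ha.nn y')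
    nlinarith

/-- Sums of functions with disjoint supports. -/
lemma disj_sum {E : Type*} [NormedAddCommGroup E] [NormedSpace ℝ E] {u v : E → ℝ} {K : ℝ} (hu : LK K u)
    (hv : LK K v) (h : ∀ y, u y = 0 ∨ v y = 0) : LK K (fun y => u y + v y) := by
  intro y y'
  beta_reduce
  by_cases h1 : v y = 0 ∧ v y' = 0
  · rw [h1.1, h1.2]
    have := hu y y'
    linarith
  by_cases h2 : u y = 0 ∧ u y' = 0
  · rw [h2.1, h2.2]
    have := hv y y'
    linarith
  -- a point on the segment where both vanish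
  have key : ∀ {p q : E}, |v p| - |u p| ≤ 0 → 0 ≤ |v q| - |u q| → ∃ z, dist p z + dist z q = dist p q ∧ u z = 0 ∧ v z = 0 := by
    intro p q hp hq
    have hcont : Continuous (fun z => |v z| - |u z|) := hv.continuous.abs.sub hu.continuous.abs
    have h3 : IsPreconnected (segment ℝ p q) := (convex_segment p q).isPreconnected
    obtain ⟨z, hz, hz0⟩ := h3.intermediate_value (left_mem_segment ℝ p q) (right_mem_segment ℝ p q)
      hcont.continuousOn ⟨hp, hq⟩
    refine ⟨z, dist_add_dist_of_mem_segment hz, ?_⟩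
    beta_reduce at hz0
    rcases h z with h4 | h4
    · rw [h4, abs_zero, sub_zero] at hz0
      exact ⟨h4, abs_eq_zero.1 hz0⟩
    · rw [h4, abs_zero, zero_sub, neg_eq_zero] at hz0
      exact ⟨abs_eq_zero.1 hz0, h4⟩
  rcases h y with hy | hy
  · rcases h y' with hy' | hy'
    · exact absurd ⟨hy, hy'⟩ h2
    · obtain ⟨z, hz, hz1, hz2⟩ := key (p := y') (q := y) (by rw [hy', abs_zero]; linarith [abs_nonneg (u y')])
        (by rw [hy, abs_zero]; linarith [abs_nonneg (v y)])
      rw [hy, hy']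
      have e1 := hv y z
      have e2 := hu z y'
      rw [hz2] at e1
      rw [hz1] at e2
      rw [dist_comm y' z, dist_comm z y, dist_comm y' y] at hz
      rw [← hz]
      linarith
  · rcases h y' with hy' | hy'
    · obtain ⟨z, hz, hz1, hz2⟩ := key (p := y) (q := y') (by rw [hy, abs_zero]; linarith [abs_nonneg (u y)])
        (by rw [hy', abs_zero]; linarith [abs_nonneg (v y')])
      rw [hy, hy']
      have e1 := hu y z
      have e2 := hv z y'
      rw [hz1] at e1
      rw [hz2] at e2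
      rw [← hz]
      linarith
    · exact absurd ⟨hy, hy'⟩ h1

variable {d : ℕ}

/-- `e` is related to `h`, `h` is small where the multiplier `a` lives and `q` is related to `a h`. -/
structure W (S : Rel (VV d)) (a : VV d → ℝ) (δ : ℝ) (e h q : VV d → ℝ) : Prop where
  R1 : S.R e h
  bd : ∀ y, a y ≠ 0 → |h y| ≤ δ
  R2 : S.R q (fun y => a y * h y)

variable {S : Rel (VV d)} {a : VV d → ℝ} {L : ℝ}

lemma W.sub {δ δ' : ℝ} {e h q e' h' q' : VV d → ℝ} (w : W S a δ e h q) (w' : W S a δ' e' h' q') :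
    W S a (δ + δ') (fun x => e x - e' x) (fun x => h x - h' x) (fun x => q x - q' x) where
  R1 := Rel.sub w.R1 w'.R1
  bd := fun y hy => (abs_sub _ _).trans (add_le_add (w.bd y hy) (w'.bd y hy))
  R2 := S.congr (Rel.sub w.R2 w'.R2) (fun _ _ => rfl) (fun x y => by ring)

lemma W.neg {δ : ℝ} {e h q : VV d → ℝ} (w : W S a δ e h q) :
    W S a δ (fun x => - e x) (fun x => - h x) (fun x => - q x) where
  R1 := Rel.neg w.R1
  bd := fun y hy => by rw [abs_neg]; exact w.bd y hy
  R2 := S.congr (Rel.neg w.R2) (fun _ _ => rfl) (fun x y => by ring)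

lemma W.ineq (ha : Cut a L) {δ K : ℝ} (hδ : 0 ≤ δ) {e h q f : VV d → ℝ} (w : W S a δ e h q)
    (h1 : LK K f) (h2 : LK K (fun x => f x + e x)) : LK (K + L * δ) (fun x => f x + q x) := by
  obtain ⟨g, hg⟩ := S.tot f ⟨K, h1⟩
  have e1 := (S.iso hg K).1 h1
  have e2 := (S.iso (Rel.add hg w.R1) K).1 h2
  exact (S.iso (Rel.add hg w.R2) _).2 (mult_ineq ha w.bd hδ e1 e2)

lemma W.two (ha : Cut a L) {δ K : ℝ} (hδ : 0 ≤ δ) {e h q f : VV d → ℝ} (w : W S a δ e h q)
    (h1 : LK K f) (h2 : LK K (fun x => f x + e x)) (h3 : LK K (fun x => f x - e x)) (x y : VV d) :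
    |q x - q y| ≤ (K + L * δ) * dist x y - (f x - f y) := by
  have e1 := w.ineq ha hδ h1 h2 x y
  have e2 := w.neg.ineq ha hδ h1 (by simpa [sub_eq_add_neg] using h3) x y
  beta_reduce at e1 e2
  rw [abs_le]
  constructor <;> linarith

/-- transfer between two functions -/
lemma W.transfer (ha : Cut a L) {δ δ' : ℝ} (hδ : 0 ≤ δ) (hδ' : 0 ≤ δ') {e h q e' h' q' : VV d → ℝ}
    (w : W S a δ e h q) (w' : W S a δ' e' h' q') (h1 : LK 1 e) (h2 : LK 1 e') (x y : VV d) :
    |(q x - q' x) - (q y - q' y)| ≤ (2 + L * (δ + δ')) * dist x y - ((e x + e' x) - (e y + e' y)) := by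
  have k1 : LK 2 (fun x => e x + e' x) := by
    have := h1.add h2
    norm_num at this
    exact this
  have k2 : LK 2 (fun x => (e x + e' x) + (e x - e' x)) := by
    intro x y
    have := h1 x y
    beta_reduce
    linarith
  have k3 : LK 2 (fun x => (e x + e' x) - (e x - e' x)) := by
    intro x y
    have := h2 x y
    beta_reduce
    linarith
  exact (w.sub w').two ha (add_nonneg hδ hδ') k1 k2 k3 x y

/-! clips -/

lemma clip_left {l r : ℝ} (h : l ≤ r) : clip l r l = 0 := by
  unfold clip hinge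
  rw [max_eq_right (by linarith), max_eq_right (by linarith)]; ring

lemma clip_right {l r : ℝ} (h : l ≤ r) : clip l r r = r - l := by
  unfold clip hinge
  rw [max_eq_left (by linarith), max_eq_right (by linarith)]; ring

lemma clip_nonneg {l r : ℝ} (h : l ≤ r) (u : ℝ) : 0 ≤ clip l r u := by
  unfold clip hinge
  have := max_le_max_right (0 : ℝ) (show u - r ≤ u - l by linarith)
  linarith

lemma clip_le {l r : ℝ} (h : l ≤ r) (u : ℝ) : clip l r u ≤ r - l := by
  unfold clip hinge
  have : max (u - l) 0 ≤ max (u - r) 0 + (r - l) := by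
    apply max_le
    · have := le_max_left (u - r) 0
      linarith
    · have := le_max_right (u - r) 0
      linarith
  linarith

lemma LK_clip {l r : ℝ} (h : l ≤ r) : LK 1 (clip l r) := (slope_clip' h).LK

/-- linking of two directions -/
theorem link (ha : Cut a L) {i k : Fin d} (hik : i ≠ k) (A : VV d) {ℓ δ : ℝ} (hℓ : 0 < ℓ) (hδ : 0 ≤ δ)
    {hi qi hk qk hp qp : VV d → ℝ}
    (wi : W S a δ (fun x => clip (A i) (A i + ℓ) (x i)) hi qi)
    (wk : W S a δ (fun x => clip (A k) (A k + ℓ) (x k)) hk qk)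
    (wp : W S a δ (fun x => max (clip (A i) (A i + ℓ) (x i) - clip (A k) (A k + ℓ) (x k)) 0) hp qp) :
    |(qi (st A i (A i + ℓ)) - qi A) - (qk (st A k (A k + ℓ)) - qk A)| ≤ 10 * (L * δ * ℓ) := by
  set ci : ℝ → ℝ := clip (A i) (A i + ℓ) with hci
  set ck : ℝ → ℝ := clip (A k) (A k + ℓ) with hck
  have hAi : A i ≤ A i + ℓ := by linarith
  have hAk : A k ≤ A k + ℓ := by linarith
  have Lci : LK 1 ci := LK_clip hAi
  have Lck : LK 1 ck := LK_clip hAk
  have ci0 : ci (A i) = 0 := clip_left hAi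
  have ci1 : ci (A i + ℓ) = ℓ := by rw [hci, clip_right hAi]; ring
  have ck0 : ck (A k) = 0 := clip_left hAk
  have ck1 : ck (A k + ℓ) = ℓ := by rw [hck, clip_right hAk]; ring
  have hki : k ≠ i := hik.symm
  -- the four points
  set P := st A i (A i + ℓ) with hP
  set Q := st A k (A k + ℓ) with hQ
  set C := st P k (A k + ℓ) with hC
  have hC' : C = st Q i (A i + ℓ) := by rw [hC, hP, hQ, st_comm _ hik]
  have Pi : P i = A i + ℓ := by rw [hP]; simp
  have Pk : P k = A k := by rw [hP, st_ne _ hki]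
  have Qi : Q i = A i := by rw [hQ, st_ne _ hik]
  have Qk : Q k = A k + ℓ := by rw [hQ]; simp
  have Ci : C i = A i + ℓ := by rw [hC, st_ne _ hik, Pi]
  have Ck : C k = A k + ℓ := by rw [hC]; simp
  have dPA : dist P A = ℓ := by
    rw [hP, dist_st_left, show A i + ℓ - A i = ℓ by ring, abs_of_pos hℓ]
  have dQA : dist Q A = ℓ := by
    rw [hQ, dist_st_left, show A k + ℓ - A k = ℓ by ring, abs_of_pos hℓ]
  have dPC : dist P C = ℓ := by
    rw [dist_comm, hC, dist_st_left, Pk, show A k + ℓ - A k = ℓ by ring, abs_of_pos hℓ]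
  have dQC : dist Q C = ℓ := by
    rw [dist_comm, hC', dist_st_left, Qi, show A i + ℓ - A i = ℓ by ring, abs_of_pos hℓ]
  -- the functions
  set w : VV d → ℝ := fun x => ci (x i) - ck (x k) with hw
  have Lw : LK 1 w := by
    have := LK_two_coord zero_le_one Lci Lck.neg hik (d := d)
    simpa [hw, sub_eq_add_neg] using this
  have L0 : LK 1 (fun _ : VV d => (0 : ℝ)) := fun x y => by simp
  have Lp : LK 1 (fun x => max (w x) 0) := Lw.max L0
  have Lm : LK 1 (fun x => max (w x) 0 - w x) := by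
    have e : (fun x => max (w x) 0 - w x) = fun x => max (-w x) 0 := by
      funext x
      rcases le_total (w x) 0 with h | h
      · rw [max_eq_right h, max_eq_left (by linarith)]; ring
      · rw [max_eq_left h, max_eq_right (by linarith)]; ring
    rw [e]
    exact Lw.neg.max L0
  have Labs : LK 1 (fun x => max (w x) 0 + (max (w x) 0 - w x)) := by
    have e : (fun x => max (w x) 0 + (max (w x) 0 - w x)) = fun x => max (w x) (- w x) := by
      funext x
      rcases le_total (w x) 0 with h | h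
      · rw [max_eq_right h, max_eq_right (by linarith)]; ring
      · rw [max_eq_left h, max_eq_left (by linarith)]; ring
    rw [e]
    exact Lw.max Lw.neg
  -- the negative part
  have wm : W S a (3 * δ) (fun x => max (w x) 0 - w x) (fun x => hp x - (hi x - hk x))
      (fun x => qp x - (qi x - qk x)) := by
    have := wp.sub (wi.sub wk)
    rw [show δ + (δ + δ) = 3 * δ by ring] at this
    exact this
  have h3δ : 0 ≤ 3 * δ := by linarith
  -- values
  have wA : w A = 0 := by rw [hw]; simp only; rw [ci0, ck0]; ring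
  have wP : w P = ℓ := by rw [hw]; simp only; rw [Pi, Pk, ci1, ck0]; ring
  have wQ : w Q = -ℓ := by rw [hw]; simp only; rw [Qi, Qk, ci0, ck1]; ring
  have wC : w C = 0 := by rw [hw]; simp only; rw [Ci, Ck, ci1, ck1]; ring
  have m1 : max ℓ 0 = ℓ := max_eq_left hℓ.le
  have m2 : max (-ℓ) 0 = 0 := max_eq_right (by linarith)
  have m3 : max (0 : ℝ) 0 = 0 := max_self _
  -- the negative part is constant along the first path
  have t1 := wm.two ha h3δ Lp Labs (by
    refine fun x y => ?_
    have := Lw x y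
    beta_reduce
    linarith) P A
  have t2 := wm.two ha h3δ Lp Labs (by
    refine fun x y => ?_
    have := Lw x y
    beta_reduce
    linarith) P C
  beta_reduce at t1 t2
  rw [wP, wA, m1, m3, dPA] at t1
  rw [wP, wC, m1, m3, dPC] at t2
  -- the positive part along the second path
  have t3 := wp.two ha hδ Lm (by
    refine fun x y => ?_
    have := Labs x y
    beta_reduce at this ⊢
    linarith) (by
    refine fun x y => ?_
    have := Lw.neg x y
    beta_reduce at this ⊢
    linarith) Q A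
  have t4 := wp.two ha hδ Lm (by
    refine fun x y => ?_
    have := Labs x y
    beta_reduce at this ⊢
    linarith) (by
    refine fun x y => ?_
    have := Lw.neg x y
    beta_reduce at this ⊢
    linarith) Q C
  beta_reduce at t3 t4
  rw [wQ, wA, m2, m3, dQA] at t3
  rw [wQ, wC, m2, m3, dQC] at t4
  -- the transversal increments
  have t5 : |qi C - qi P| ≤ L * δ * ℓ := by
    have e1 : LK (1 + L * δ) (fun x : VV d => 1 * x k + qi x) :=
      wi.ineq ha hδ (LK_comp_coord zero_le_one (LK_lin (K := 1) (c := 1) (by simp)) k)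
        (LK_two_coord (φ := fun u => 1 * u) zero_le_one (LK_lin (K := 1) (c := 1) (by simp)) Lci hki)
    have e2 : LK (1 + L * δ) (fun x : VV d => -(1 * x k) + qi x) :=
      wi.ineq ha hδ (f := fun x => -(1 * x k)) (LK_comp_coord zero_le_one (φ := fun u => -(1 * u))
        (LK_lin (K := 1) (c := 1) (by simp)).neg k)
        (LK_two_coord (φ := fun u => -(1 * u)) zero_le_one (LK_lin (K := 1) (c := 1) (by simp)).neg Lci hki)
    have := small_incr k e1 e2 P (A k + ℓ) (A k)
    rw [show A k + ℓ - A k = ℓ by ring, abs_of_pos hℓ] at this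
    have e3 : st P k (A k) = P := by rw [← Pk]; simp
    rwa [e3] at this
  have t6 : |qk C - qk Q| ≤ L * δ * ℓ := by
    have e1 : LK (1 + L * δ) (fun x : VV d => 1 * x i + qk x) :=
      wk.ineq ha hδ (LK_comp_coord zero_le_one (LK_lin (K := 1) (c := 1) (by simp)) i)
        (LK_two_coord (φ := fun u => 1 * u) zero_le_one (LK_lin (K := 1) (c := 1) (by simp)) Lck hik)
    have e2 : LK (1 + L * δ) (fun x : VV d => -(1 * x i) + qk x) :=
      wk.ineq ha hδ (f := fun x => -(1 * x i)) (LK_comp_coord zero_le_one (φ := fun u => -(1 * u))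
        (LK_lin (K := 1) (c := 1) (by simp)).neg i)
        (LK_two_coord (φ := fun u => -(1 * u)) zero_le_one (LK_lin (K := 1) (c := 1) (by simp)).neg Lck hik)
    have := small_incr i e1 e2 Q (A i + ℓ) (A i)
    rw [show A i + ℓ - A i = ℓ by ring, abs_of_pos hℓ] at this
    have e3 : st Q i (A i) = Q := by rw [← Qi]; simp
    rw [e3, ← hC'] at this
    exact this
  rw [abs_le] at *
  constructor <;> linarith [t1.1, t1.2, t2.1, t2.2, t3.1, t3.2, t4.1, t4.2, t5.1, t5.2, t6.1, t6.2]

/-- One step. -/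
theorem one_step (ha : Cut a L) {i k : Fin d} (hik : i ≠ k) (A : VV d) {ℓ δ δ' : ℝ} (hℓ : 0 < ℓ) (hδ : 0 ≤ δ)
    (hδ' : 0 ≤ δ') {hi qi hk qk hp qp : VV d → ℝ}
    (wi : W S a δ' (fun x => clip (A i) (A i + ℓ) (x i)) hi qi)
    (wk : W S a δ' (fun x => clip (A k) (A k + ℓ) (x k)) hk qk)
    (wp : W S a δ' (fun x => max (clip (A i) (A i + ℓ) (x i) - clip (A k) (A k + ℓ) (x k)) 0) hp qp)
    {E : ℝ → ℝ} (hE : LK 1 E) {h q : VV d → ℝ} (w : W S a δ (fun x => E (x k)) h q) {f G : VV d → ℝ}
    (hf : S.R f G) (hG : LK 1 G) (hd : ∀ y, a y = 0 ∨ G y = 0) :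
    |f (st A i (A i + ℓ)) - f A| + (q (st A k (A k + ℓ)) - q A) ≤
      ℓ * (1 + L * δ + 12 * (L * δ')) + (ℓ - (E (A k + ℓ) - E (A k))) := by
  have hAi : A i ≤ A i + ℓ := by linarith
  have hAk : A k ≤ A k + ℓ := by linarith
  have dPA : dist (st A i (A i + ℓ)) A = ℓ := by
    rw [dist_st_left, show A i + ℓ - A i = ℓ by ring, abs_of_pos hℓ]
  have dQA : dist (st A k (A k + ℓ)) A = ℓ := by
    rw [dist_st_left, show A k + ℓ - A k = ℓ by ring, abs_of_pos hℓ]
  -- first inequality
  have Lah : LK (1 + L * δ') (fun y => a y * hi y) := by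
    have e0 : LK 1 (fun _ : VV d => (0 : ℝ)) := fun x y => by simp
    have e1 : LK 1 (fun y => (0 : ℝ) + hi y) := by
      have := (S.iso wi.R1 1).1 (LK_comp_coord zero_le_one (LK_clip hAi) i)
      simpa using this
    have := mult_ineq ha wi.bd hδ' e0 e1
    simpa using this
  have hLδ' : 0 ≤ L * δ' := mul_nonneg ha.L0 hδ'
  have LG : LK (1 + L * δ') G := hG.mono (by linarith)
  have s1 : LK (1 + L * δ') (fun x => qi x + f x) := by
    refine (S.iso (Rel.add wi.R2 hf) _).2 (disj_sum Lah LG ?_)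
    intro y
    rcases hd y with h1 | h1
    · left; rw [h1, zero_mul]
    · right; exact h1
  have s2 : LK (1 + L * δ') (fun x => qi x - f x) := by
    refine (S.iso (Rel.sub wi.R2 hf) _).2 ?_
    have := disj_sum Lah LG.neg (by
      intro y
      rcases hd y with h1 | h1
      · left; rw [h1, zero_mul]
      · right; rw [h1, neg_zero])
    simpa [sub_eq_add_neg] using this
  have t1 := s1 (st A i (A i + ℓ)) A
  have t2 := s2 (st A i (A i + ℓ)) A
  beta_reduce at t1 t2
  rw [dPA] at t1 t2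
  have t3 := link ha hik A hℓ hδ' wi wk wp
  have t4 := wk.transfer ha hδ' hδ w (LK_comp_coord zero_le_one (LK_clip hAk) k)
    (LK_comp_coord zero_le_one hE k) (st A k (A k + ℓ)) A
  rw [dQA] at t4
  simp only [st_same] at t4
  rw [clip_right hAk, clip_left hAk] at t4
  have t5 : |f (st A i (A i + ℓ)) - f A| ≤ (1 + L * δ') * ℓ - (qi (st A i (A i + ℓ)) - qi A) := by
    rw [abs_le]
    constructor <;> linarith
  rw [abs_le] at t3 t4
  have t6 : (qk (st A k (A k + ℓ)) - q (st A k (A k + ℓ))) - (qk A - q A) ≥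
      -((2 + L * (δ' + δ)) * ℓ - (A k + ℓ - A k + E (A k + ℓ) - (0 + E (A k)))) := by linarith [t4.1]
  nlinarith [t3.1, t6, t5]

end Pool.Agent.W2helper23.LR1
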