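import Mathlib
import Pool.Agent.W2helper23.LR1.Mult

set_option autoImplicit false

open MeasureTheory Set Filter Topology

namespace Pool.Agent.W2helper23.LR1

open Pool.Agent.Helper23K9.LR
open Pool.Agent.Helper23K9.LR.Rel (hinge LK_hinge_real)

variable {d : ℕ}

/-- Small functions have locally small images, uniformly. -/
lemma modulus (S : Rel (VV d)) (R : ℝ) {η : ℝ} (hη : 0 < η) : ∃ ℓ₀ : ℝ, 0 < ℓ₀ ∧ ∀ e h : VV d → ℝ, S.R e h →
    LK 1 e → (∀ x, |e x| ≤ ℓ₀) → ∀ y, ‖y‖ ≤ R → |h y - h 0| ≤ η := by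
  by_contra hcon
  push Not at hcon
  have hn : ∀ n : ℕ, (0 : ℝ) < 1 / ((n : ℝ) + 1) := fun n => by positivity
  choose e h hR he hb y hy hbad using fun n : ℕ => hcon (1 / ((n : ℝ) + 1)) (hn n)
  have lim : ∀ x z, Tendsto (fun n => h n x - h n z) atTop (𝓝 0) := by
    intro x z
    have h1 := S.cont e h (fun _ => 0) (fun _ => 0) 1 hR he (R_zero S) (fun x z => by
      rw [sub_zero]
      rw [tendsto_zero_iff_abs_tendsto_zero]
      have h2 : Tendsto (fun n : ℕ => 2 * (1 / ((n : ℝ) + 1))) atTop (𝓝 (2 * 0)) :=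
        tendsto_one_div_add_atTop_nhds_zero_nat.const_mul 2
      rw [mul_zero] at h2
      refine squeeze_zero (fun n => abs_nonneg _) (fun n => ?_) h2
      have := abs_sub (e n x) (e n z)
      have := hb n x
      have := hb n z
      simp only [Function.comp]
      linarith) x z
    rwa [sub_zero] at h1
  obtain ⟨y₀, _, φ, hφ, hlim⟩ := (isCompact_closedBall (0 : VV d) R).tendsto_subseq
    (x := y) (fun n => by rw [mem_closedBall_zero_iff]; exact hy n)
  have h1 : Tendsto (fun n => dist (y (φ n)) y₀ + |h (φ n) y₀ - h (φ n) 0|) atTop (𝓝 (0 + |(0 : ℝ)|)) := by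
    apply Tendsto.add
    · exact tendsto_iff_dist_tendsto_zero.1 hlim
    · exact ((lim y₀ 0).comp hφ.tendsto_atTop).abs
  rw [abs_zero, add_zero] at h1
  obtain ⟨n, hn⟩ := (h1.eventually (gt_mem_nhds hη)).exists
  have h2 : LK 1 (h (φ n)) := (S.iso (hR _) 1).1 (he _)
  have h3 := h2.abs (y (φ n)) y₀
  have h4 := hbad (φ n)
  have h5 := abs_sub_le (h (φ n) (y (φ n))) (h (φ n) y₀) (h (φ n) 0)
  linarith

variable {S : Rel (VV d)} {a : VV d → ℝ} {L : ℝ}

lemma LK_zero_fun : LK 1 (fun _ : VV d => (0 : ℝ)) := fun x y => by simp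

lemma LK_mul_cut (ha : Cut a L) {h : VV d → ℝ} {δ K : ℝ} (hδ0 : 0 ≤ δ) (hδ : ∀ y, a y ≠ 0 → |h y| ≤ δ)
    (hK : 0 ≤ K) (hh : LK K h) : LK (K + L * δ) (fun y => a y * h y) := by
  have e0 : LK K (fun _ : VV d => (0 : ℝ)) := fun x y => by
    have : 0 ≤ K * dist x y := mul_nonneg hK dist_nonneg
    simpa using this
  have e1 : LK K (fun y => (0 : ℝ) + h y) := by simpa using hh
  have := mult_ineq ha hδ hδ0 e0 e1
  simpa using this

lemma mkW (ha : Cut a L) {R δ' : ℝ} (hδ' : 0 ≤ δ') (hsupp : ∀ y, a y ≠ 0 → ‖y‖ ≤ R) {e h : VV d → ℝ}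
    (he : LK 1 e) (hR : S.R e h) (hh : ∀ y, ‖y‖ ≤ R → |h y - h 0| ≤ δ') : ∃ h' q, W S a δ' e h' q := by
  have bd : ∀ y, a y ≠ 0 → |h y - h 0| ≤ δ' := fun y hy => hh y (hsupp y hy)
  have hLK : LK 1 (fun y => h y - h 0) := by
    have := (S.iso hR 1).1 he
    intro x y
    have := this x y
    beta_reduce
    linarith
  obtain ⟨q, hq⟩ := S.surj _ ⟨_, LK_mul_cut ha hδ' bd zero_le_one hLK⟩
  exact ⟨fun y => h y - h 0, q, ⟨S.congr hR (fun _ _ => rfl) (fun x y => by ring), bd, hq⟩⟩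

/-- The one-step inequality with vanishing errors. -/
theorem step_small (ha : Cut a L) {R : ℝ} (hsupp : ∀ y, a y ≠ 0 → ‖y‖ ≤ R) {i k : Fin d} (hik : i ≠ k)
    {δ : ℝ} (hδ : 0 ≤ δ) {E : ℝ → ℝ} (hE : LK 1 E) {h q : VV d → ℝ} (w : W S a δ (fun x => E (x k)) h q)
    {f G : VV d → ℝ} (hf : S.R f G) (hG : LK 1 G) (hd : ∀ y, a y = 0 ∨ G y = 0) {ε : ℝ} (hε : 0 < ε) :
    ∃ ℓ₀ : ℝ, 0 < ℓ₀ ∧ ∀ ℓ, 0 < ℓ → ℓ < ℓ₀ → ∀ A : VV d,
      |f (st A i (A i + ℓ)) - f A| + (q (st A k (A k + ℓ)) - q A) ≤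
      ℓ * (1 + L * δ + ε) + (ℓ - (E (A k + ℓ) - E (A k))) := by
  set δ' : ℝ := ε / (12 * (L + 1)) with hδ'
  have hL := ha.L0
  have hδ'0 : 0 < δ' := by positivity
  have hδ'1 : 12 * (L * δ') ≤ ε := by
    have : 12 * ((L + 1) * δ') = ε := by rw [hδ']; field_simp
    nlinarith
  obtain ⟨ℓ₀, hℓ₀, hmod⟩ := modulus S R hδ'0
  refine ⟨ℓ₀, hℓ₀, fun ℓ hℓ hℓ1 A => ?_⟩
  have hAi : A i ≤ A i + ℓ := by linarith
  have hAk : A k ≤ A k + ℓ := by linarith
  have c1 : ∀ u, 0 ≤ clip (A i) (A i + ℓ) u := clip_nonneg hAi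
  have c2 : ∀ u, clip (A i) (A i + ℓ) u ≤ ℓ := fun u => by
    have := clip_le hAi u
    linarith
  have c3 : ∀ u, 0 ≤ clip (A k) (A k + ℓ) u := clip_nonneg hAk
  have c4 : ∀ u, clip (A k) (A k + ℓ) u ≤ ℓ := fun u => by
    have := clip_le hAk u
    linarith
  have Li : LK 1 (fun x : VV d => clip (A i) (A i + ℓ) (x i)) := LK_comp_coord zero_le_one (LK_clip hAi) i
  have Lk : LK 1 (fun x : VV d => clip (A k) (A k + ℓ) (x k)) := LK_comp_coord zero_le_one (LK_clip hAk) k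
  have Lp : LK 1 (fun x : VV d => max (clip (A i) (A i + ℓ) (x i) - clip (A k) (A k + ℓ) (x k)) 0) := by
    refine LK.max ?_ LK_zero_fun
    have := LK_two_coord zero_le_one (LK_clip hAi) (LK_clip hAk).neg hik (d := d)
    simpa [sub_eq_add_neg] using this
  obtain ⟨gi, hgi⟩ := S.tot _ ⟨1, Li⟩
  obtain ⟨gk, hgk⟩ := S.tot _ ⟨1, Lk⟩
  obtain ⟨gp, hgp⟩ := S.tot _ ⟨1, Lp⟩
  obtain ⟨hi, qi, wi⟩ := mkW ha hδ'0.le hsupp Li hgi (hmod _ _ hgi Li (fun x => by
    rw [abs_of_nonneg (c1 _)]; exact (c2 _).trans hℓ1.le))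
  obtain ⟨hk, qk, wk⟩ := mkW ha hδ'0.le hsupp Lk hgk (hmod _ _ hgk Lk (fun x => by
    rw [abs_of_nonneg (c3 _)]; exact (c4 _).trans hℓ1.le))
  obtain ⟨hp, qp, wp⟩ := mkW ha hδ'0.le hsupp Lp hgp (hmod _ _ hgp Lp (fun x => by
    rw [abs_of_nonneg (le_max_right _ _)]
    apply max_le _ hℓ₀.le
    have := c2 (x i)
    have := c3 (x k)
    linarith))
  have := one_step ha hik A hℓ hδ hδ'0.le wi wk wp hE w hf hG hd
  nlinarith

/-- a one-sided derivative bound -/
lemma deriv_nonpos {Ψ : ℝ → ℝ} {c : ℝ} (h : HasDerivAt Ψ c 0) (h0 : Ψ 0 = 0)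
    (h1 : ∃ ℓ₀ : ℝ, 0 < ℓ₀ ∧ ∀ ℓ, 0 < ℓ → ℓ < ℓ₀ → Ψ ℓ ≤ 0) : c ≤ 0 := by
  obtain ⟨ℓ₀, hℓ₀, h1⟩ := h1
  have h2 := (hasDerivAt_iff_tendsto_slope.1 h).mono_left
    (nhdsWithin_mono 0 (show Ioi (0 : ℝ) ⊆ {0}ᶜ from fun x hx => ne_of_gt hx))
  apply le_of_tendsto h2
  filter_upwards [Ioo_mem_nhdsGT hℓ₀] with ℓ hℓ
  rw [slope_def_field, h0, sub_zero, sub_zero]
  exact div_nonpos_of_nonpos_of_nonneg (h1 ℓ hℓ.1 hℓ.2) hℓ.1.le

/-- The integrated inequality. -/
theorem integrated (ha : Cut a L) {R : ℝ} (hsupp : ∀ y, a y ≠ 0 → ‖y‖ ≤ R) {i k : Fin d} (hik : i ≠ k)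
    {δ : ℝ} (hδ : 0 ≤ δ) {E : ℝ → ℝ} (hE : LK 1 E) {h q : VV d → ℝ} (w : W S a δ (fun x => E (x k)) h q)
    {Kq : ℝ} (hq : LK Kq q)
    {f G : VV d → ℝ} (hf : S.R f G) (hG : LK 1 G) (hd : ∀ y, a y = 0 ∨ G y = 0) (x : VV d) {v0 v1 : ℝ}
    (hv : v0 ≤ v1) {u : ℝ} (hu : HasDerivAt E 1 u)
    (hQ : DifferentiableAt ℝ (fun u => ∫ v in v0..v1, q (st (st x k u) i v)) u) :
    |f (st (st x k u) i v1) - f (st (st x k u) i v0)| +
      deriv (fun u => ∫ v in v0..v1, q (st (st x k u) i v)) u ≤ (v1 - v0) * (1 + L * δ) := by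
  set Q : ℝ → ℝ := fun u => ∫ v in v0..v1, q (st (st x k u) i v) with hQdef
  set g : ℝ → ℝ := fun v => f (st (st x k u) i v) with hg
  have hki : k ≠ i := hik.symm
  have hfL : LK 1 f := (S.iso hf 1).2 hG
  have hgL : LK 1 g := LK_st_line hfL _ i
  have hgc : Continuous g := hgL.continuous
  have hqc : ∀ u, Continuous (fun v => q (st (st x k u) i v)) := fun u => (LK_st_line hq _ i).continuous
  set D := |g v1 - g v0| with hD
  have hv' : 0 ≤ v1 - v0 := sub_nonneg.2 hv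
  -- for each `ε`
  have key : ∀ ε : ℝ, 0 < ε → D + deriv Q u ≤ (v1 - v0) * (1 + L * δ + ε) := by
    intro ε hε
    obtain ⟨ℓ₀, hℓ₀, hstep⟩ := step_small ha hsupp hik hδ hE w hf hG hd hε
    have hder : HasDerivAt (fun ℓ => ℓ * D + (Q (u + ℓ) - Q u) -
        (v1 - v0) * (ℓ * (1 + L * δ + ε) + (ℓ - (E (u + ℓ) - E u))) - 2 * ℓ ^ 2)
        (1 * D + deriv Q u - (v1 - v0) * (1 * (1 + L * δ + ε) + (1 - 1)) - 2 * 0) 0 := by
      have d1 : HasDerivAt (fun ℓ : ℝ => Q (u + ℓ)) (deriv Q u) 0 := by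
        have h1 : HasDerivAt Q (deriv Q u) (u + 0) := by rw [add_zero]; exact hQ.hasDerivAt
        have h2 : HasDerivAt (fun ℓ : ℝ => u + ℓ) 1 0 := (hasDerivAt_id (0 : ℝ)).const_add u
        have := h1.comp (0 : ℝ) h2
        rwa [mul_one] at this
      have d2 : HasDerivAt (fun ℓ : ℝ => E (u + ℓ)) 1 0 := by
        have h1 : HasDerivAt E 1 (u + 0) := by rw [add_zero]; exact hu
        have h2 : HasDerivAt (fun ℓ : ℝ => u + ℓ) 1 0 := (hasDerivAt_id (0 : ℝ)).const_add u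
        have := h1.comp (0 : ℝ) h2
        rwa [mul_one] at this
      have d3 : HasDerivAt (fun ℓ : ℝ => ℓ) 1 0 := hasDerivAt_id 0
      have d4 : HasDerivAt (fun ℓ : ℝ => 2 * ℓ ^ 2) (2 * 0) 0 := by
        have := (hasDerivAt_pow 2 (0 : ℝ)).const_mul 2
        simpa using this
      exact (((d3.mul_const D).add (d1.sub_const _)).sub
        (((d3.mul_const _).add (d3.sub (d2.sub_const _))).const_mul _)).sub d4
    have h3 := deriv_nonpos hder (by simp) ⟨ℓ₀, hℓ₀, fun ℓ hℓ hℓ1 => by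
      have p1 : ∀ v, |g (v + ℓ) - g v| + (q (st (st x k (u + ℓ)) i v) - q (st (st x k u) i v)) ≤
          ℓ * (1 + L * δ + ε) + (ℓ - (E (u + ℓ) - E u)) := by
        intro v
        have h4 := hstep ℓ hℓ hℓ1 (st (st x k u) i v)
        have e1 : st (st (st x k u) i v) k (u + ℓ) = st (st x k (u + ℓ)) i v := by
          rw [st_comm (st x k u) hik, st_st]
        rw [st_same, st_st, st_ne _ hki, st_same, e1] at h4
        exact h4
      have i1 : IntervalIntegrable (fun v => |g (v + ℓ) - g v|) volume v0 v1 := by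
        apply Continuous.intervalIntegrable
        fun_prop
      have i2 : IntervalIntegrable (fun v => q (st (st x k (u + ℓ)) i v) - q (st (st x k u) i v)) volume v0 v1 :=
        ((hqc _).sub (hqc _)).intervalIntegrable _ _
      have p2 := intervalIntegral.integral_mono_on hv (i1.add i2) intervalIntegrable_const (fun v _ => p1 v)
      rw [intervalIntegral.integral_add i1 i2, intervalIntegral.integral_const,
        intervalIntegral.integral_sub ((hqc _).intervalIntegrable _ _) ((hqc _).intervalIntegrable _ _)] at p2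
      -- the variation of `g`
      have i3 : ∀ a b, IntervalIntegrable g volume a b := fun a b => hgc.intervalIntegrable a b
      have p3 : ℓ * D - 2 * ℓ ^ 2 ≤ ∫ v in v0..v1, |g (v + ℓ) - g v| := by
        have e1 : |∫ v in v0..v1, (g (v + ℓ) - g v)| ≤ ∫ v in v0..v1, |g (v + ℓ) - g v| :=
          intervalIntegral.abs_integral_le_integral_abs hv
        have e2 : ∫ v in v0..v1, (g (v + ℓ) - g v) = (∫ v in v1..(v1 + ℓ), g v) - ∫ v in v0..(v0 + ℓ), g v := by
          rw [intervalIntegral.integral_sub (by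
            apply Continuous.intervalIntegrable
            fun_prop) (i3 _ _), intervalIntegral.integral_comp_add_right]
          have e3 := intervalIntegral.integral_add_adjacent_intervals (i3 v0 v1) (i3 v1 (v1 + ℓ))
          have e4 := intervalIntegral.integral_add_adjacent_intervals (i3 v0 (v0 + ℓ)) (i3 (v0 + ℓ) (v1 + ℓ))
          linarith
        have e5 : ∀ c : ℝ, |(∫ v in c..(c + ℓ), g v) - ℓ * g c| ≤ ℓ ^ 2 := by
          intro c
          have e6 : (∫ v in c..(c + ℓ), g v) - ℓ * g c = ∫ v in c..(c + ℓ), (g v - g c) := by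
            rw [intervalIntegral.integral_sub (i3 _ _) intervalIntegrable_const, intervalIntegral.integral_const]
            simp
          rw [e6]
          have e7 := intervalIntegral.norm_integral_le_of_norm_le_const (a := c) (b := c + ℓ) (C := ℓ)
            (f := fun v => g v - g c) (fun v hv => by
              rw [uIoc_of_le (by linarith)] at hv
              have := hgL.abs v c
              rw [Real.dist_eq, one_mul, abs_of_pos (sub_pos.2 hv.1)] at this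
              rw [Real.norm_eq_abs]
              exact this.trans (by linarith [hv.2]))
          rw [Real.norm_eq_abs, show c + ℓ - c = ℓ by ring, abs_of_pos hℓ] at e7
          rw [sq]
          exact e7
        have e8 := e5 v1
        have e9 := e5 v0
        rw [e2] at e1
        refine le_trans ?_ e1
        rw [hD]
        have e10 : ℓ * |g v1 - g v0| = |ℓ * g v1 - ℓ * g v0| := by
          rw [← mul_sub, abs_mul, abs_of_pos hℓ]
        rw [e10]
        have e11 : ℓ * g v1 - ℓ * g v0 = ((∫ v in v1..(v1 + ℓ), g v) - ∫ v in v0..(v0 + ℓ), g v) -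
          (((∫ v in v1..(v1 + ℓ), g v) - ℓ * g v1) - ((∫ v in v0..(v0 + ℓ), g v) - ℓ * g v0)) := by ring
        rw [e11]
        have e12 := abs_sub ((∫ v in v1..(v1 + ℓ), g v) - ∫ v in v0..(v0 + ℓ), g v)
          (((∫ v in v1..(v1 + ℓ), g v) - ℓ * g v1) - ((∫ v in v0..(v0 + ℓ), g v) - ℓ * g v0))
        have e13 := abs_sub ((∫ v in v1..(v1 + ℓ), g v) - ℓ * g v1) ((∫ v in v0..(v0 + ℓ), g v) - ℓ * g v0)
        linarith
      rw [smul_eq_mul] at p2
      have e14 : Q (u + ℓ) - Q u = (∫ v in v0..v1, q (st (st x k (u + ℓ)) i v)) -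
        ∫ v in v0..v1, q (st (st x k u) i v) := rfl
      rw [e14]
      linarith⟩
    linarith
  have h5 : ∀ ε : ℝ, 0 < ε → D + deriv Q u ≤ (v1 - v0) * (1 + L * δ) + ε := by
    intro ε hε
    have h6 := key (ε / (v1 - v0 + 1)) (by positivity)
    have h7 : (v1 - v0) * (ε / (v1 - v0 + 1)) ≤ ε := by
      rw [mul_div_assoc', div_le_iff₀ (by positivity)]
      nlinarith
    nlinarith
  exact le_of_forall_pos_le_add h5

end Pool.Agent.W2helper23.LR1
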