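import Mathlib
import Pool.Agent.W2helper23.LR1.Lim

set_option autoImplicit false

open MeasureTheory Set Filter Topology

namespace Pool.Agent.W2helper23.LR1

open Pool.Agent.Helper23K9.LR
open Pool.Agent.Helper23K9.LR.Rel (hinge LK_hinge_real)

/-! one-dimensional tools -/

lemma integral_deriv_LK {Q : ℝ → ℝ} {C : ℝ} (hQ : LK C Q) (u v : ℝ) : ∫ s in u..v, deriv Q s = Q v - Q u := by
  apply AbsolutelyContinuousOnInterval.integral_deriv_eq_sub
  exact (hQ.lipschitz.lipschitzOnWith).absolutelyContinuousOnInterval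

lemma intervalIntegrable_deriv_LK {Q : ℝ → ℝ} {C : ℝ} (hQ : LK C Q) (u v : ℝ) :
    IntervalIntegrable (deriv Q) volume u v := by
  apply AbsolutelyContinuousOnInterval.intervalIntegrable_deriv
  exact (hQ.lipschitz.lipschitzOnWith).absolutelyContinuousOnInterval

lemma ae_diff_LK {Q : ℝ → ℝ} {C : ℝ} (hQ : LK C Q) : ∀ᵐ u, DifferentiableAt ℝ Q u :=
  hQ.lipschitz.ae_differentiableAt

lemma deriv_le_LK {Q : ℝ → ℝ} {C : ℝ} (hC : 0 ≤ C) (hQ : LK C Q) (u : ℝ) : deriv Q u ≤ C := by
  by_cases hd : DifferentiableAt ℝ Q u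
  · have h1 : Monotone (fun u => C * u - Q u) := fun v u huv => by
      have := hQ u v
      rw [Real.dist_eq, abs_of_nonneg (by linarith)] at this
      simp only
      linarith
    have h2 : 0 ≤ deriv (fun u => C * u - Q u) u := h1.deriv_nonneg
    have h3 : HasDerivAt (fun u => C * u - Q u) (C * 1 - deriv Q u) u :=
      ((hasDerivAt_id u).const_mul C).sub hd.hasDerivAt
    rw [h3.deriv] at h2
    linarith
  · rw [deriv_zero_of_not_differentiableAt hd]
    exact hC

/-- an upper bound for the derivative passes to the limit -/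
lemma lim_deriv {Q : ℕ → ℝ → ℝ} {Q0 : ℝ → ℝ} {C : ℝ} (hC : 0 ≤ C) (hQ : ∀ n, LK C (Q n))
    (hlim : ∀ u v, Tendsto (fun n => Q n u - Q n v) atTop (𝓝 (Q0 u - Q0 v))) {P : Set ℝ}
    (hP : MeasurableSet P) {M : ℝ → ℝ} (hM : Measurable M) {B : ℝ} (hMb : ∀ u, |M u| ≤ B)
    (h : ∀ n, ∀ᵐ u, u ∈ P → deriv (Q n) u ≤ M u) : ∀ᵐ u, u ∈ P → deriv Q0 u ≤ M u := by
  have hB : 0 ≤ B := (abs_nonneg _).trans (hMb 0)
  set K : ℝ := C + B with hK
  set g : ℝ → ℝ := P.indicator (fun u => K - M u) with hg
  have hgm : Measurable g := (measurable_const.sub hM).indicator hP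
  have hgb : ∀ u, |g u| ≤ K + B := by
    intro u
    rw [hg]
    by_cases hu : u ∈ P
    · rw [indicator_of_mem hu]
      have := abs_le.1 (hMb u)
      rw [abs_le]
      constructor <;> linarith
    · rw [indicator_of_notMem hu, abs_zero]
      linarith
  have hgI : ∀ a b, IntervalIntegrable g volume a b := by
    intro a b
    rw [intervalIntegrable_iff]
    apply Measure.integrableOn_of_bounded (M := K + B)
    · rw [uIoc]; simp
    · exact hgm.aestronglyMeasurable
    · filter_upwards with u
      exact hgb u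
  have hgL : LocallyIntegrable g volume := by
    rw [locallyIntegrable_iff]
    intro k hk
    apply Measure.integrableOn_of_bounded (M := K + B) hk.measure_lt_top.ne hgm.aestronglyMeasurable
    filter_upwards with u
    exact hgb u
  set H : ℝ → ℝ := fun u => ∫ s in (0 : ℝ)..u, g s with hH
  have hHd : ∀ a b, H b - H a = ∫ s in a..b, g s := fun a b =>
    intervalIntegral.integral_interval_sub_left (hgI _ _) (hgI _ _)
  -- the functions `K u - (Q n u + H u)` are monotone
  have mono_n : ∀ n, ∀ u v, u ≤ v → 0 ≤ K * (v - u) - (Q n v - Q n u) - (H v - H u) := by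
    intro n u v huv
    have i1 := intervalIntegrable_deriv_LK (hQ n) u v
    have e1 : K * (v - u) - (Q n v - Q n u) - (H v - H u) = ∫ s in u..v, (K - deriv (Q n) s - g s) := by
      rw [intervalIntegral.integral_sub (intervalIntegrable_const.sub i1) (hgI _ _),
        intervalIntegral.integral_sub intervalIntegrable_const i1, integral_deriv_LK (hQ n), hHd,
        intervalIntegral.integral_const, smul_eq_mul]
      ring
    rw [e1]
    apply intervalIntegral.integral_nonneg_of_ae huv
    filter_upwards [h n] with s hs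
    by_cases hsP : s ∈ P
    · have := hs hsP
      simp only [hg, indicator_of_mem hsP, Pi.zero_apply]
      linarith
    · have := deriv_le_LK hC (hQ n) s
      simp only [hg, indicator_of_notMem hsP, Pi.zero_apply]
      linarith
  have mono_0 : Monotone (fun u => K * u - Q0 u - H u) := by
    intro u v huv
    have h1 : Tendsto (fun n => K * (v - u) - (Q n v - Q n u) - (H v - H u)) atTop
        (𝓝 (K * (v - u) - (Q0 v - Q0 u) - (H v - H u))) :=
      ((tendsto_const_nhds).sub (hlim v u)).sub tendsto_const_nhds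
    have h2 := ge_of_tendsto' h1 (fun n => mono_n n u v huv)
    simp only
    linarith
  have hQ0 : LK C Q0 := fun u v => le_of_tendsto' (hlim u v) (fun n => hQ n u v)
  filter_upwards [ae_diff_LK hQ0, LocallyIntegrable.ae_hasDerivAt_integral hgL] with u h1 h2 huP
  have h3 : HasDerivAt H (g u) u := h2 0
  have h4 : HasDerivAt (fun u => K * u - Q0 u - H u) (K * 1 - deriv Q0 u - g u) u :=
    (((hasDerivAt_id u).const_mul K).sub h1.hasDerivAt).sub h3
  have h5 : 0 ≤ deriv (fun u => K * u - Q0 u - H u) u := mono_0.deriv_nonneg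
  rw [h4.deriv, hg, indicator_of_mem huP] at h5
  linarith

/-! cut-offs -/

lemma Cut.mul {M : Type*} [PseudoMetricSpace M] {a a' : M → ℝ} {L L' : ℝ} (h : Cut a L) (h' : Cut a' L') :
    Cut (fun y => a y * a' y) (L + L') where
  nn := fun y => mul_nonneg (h.nn y) (h'.nn y)
  le := fun y => mul_le_one₀ (h.le y) (h'.nn y) (h'.le y)
  lk := by
    intro x y
    beta_reduce
    have e : a x * a' x - a y * a' y = (a x - a y) * a' x + a y * (a' x - a' y) := by ring
    rw [e, add_mul]
    have hD : 0 ≤ dist x y := dist_nonneg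
    have k1 : (a x - a y) * a' x ≤ L * dist x y := by
      have := mul_le_mul_of_nonneg_right (h.lk x y) (h'.nn x)
      have h2 : L * dist x y * a' x ≤ L * dist x y * 1 :=
        mul_le_mul_of_nonneg_left (h'.le x) (mul_nonneg h.L0 hD)
      linarith
    have k2 : a y * (a' x - a' y) ≤ L' * dist x y := by
      have := mul_le_mul_of_nonneg_left (h'.lk x y) (h.nn y)
      have h2 : a y * (L' * dist x y) ≤ 1 * (L' * dist x y) :=
        mul_le_mul_of_nonneg_right (h.le y) (mul_nonneg h'.L0 hD)
      linarith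
    exact add_le_add k1 k2
  L0 := add_nonneg h.L0 h'.L0

/-- the trapezoid -/
noncomputable def trap (s r t : ℝ) : ℝ := max 0 (min 1 (2 - |t - s| / r))

lemma trap_cut {s r : ℝ} (hr : 0 < r) : Cut (trap s r) (1 / r) where
  nn := fun y => le_max_left _ _
  le := fun y => max_le zero_le_one (min_le_left _ _)
  lk := by
    have e0 : LK (1 / r) (fun _ : ℝ => (0 : ℝ)) := fun x y => by
      have : 0 ≤ 1 / r * dist x y := by positivity
      simpa using this
    have e1 : LK (1 / r) (fun _ : ℝ => (1 : ℝ)) := fun x y => by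
      have : 0 ≤ 1 / r * dist x y := by positivity
      simpa using this
    have e2 : LK (1 / r) (fun t : ℝ => 2 - |t - s| / r) := fun x y => by
      rw [Real.dist_eq]
      have h1 := abs_abs_sub_abs_le_abs_sub (y - s) (x - s)
      have h2 := le_abs_self (|y - s| - |x - s|)
      have h3 : y - s - (x - s) = y - x := by ring
      rw [h3, abs_sub_comm y x] at h1
      beta_reduce
      have h4 : 2 - |x - s| / r - (2 - |y - s| / r) = 1 / r * (|y - s| - |x - s|) := by ring
      rw [h4]
      exact mul_le_mul_of_nonneg_left (h2.trans h1) (by positivity)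
    exact e0.max (e1.min e2)
  L0 := by positivity

lemma trap_one {s r t : ℝ} (hr : 0 < r) (h : |t - s| ≤ r) : trap s r t = 1 := by
  unfold trap
  have : |t - s| / r ≤ 1 := (div_le_one hr).2 h
  rw [min_eq_left (by linarith), max_eq_right zero_le_one]

lemma trap_zero {s r t : ℝ} (hr : 0 < r) (h : 2 * r ≤ |t - s|) : trap s r t = 0 := by
  unfold trap
  have : 2 ≤ |t - s| / r := by rw [le_div_iff₀ hr]; exact h
  apply max_eq_left
  exact (min_le_right _ _).trans (by linarith)

variable {d : ℕ}

/-- the ball cut-off -/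
noncomputable def ballCut (n : ℕ) (y : VV d) : ℝ := max 0 (min 1 ((n : ℝ) + 1 - ‖y‖))

lemma ballCut_cut (n : ℕ) : Cut (ballCut n : VV d → ℝ) 1 where
  nn := fun y => le_max_left _ _
  le := fun y => max_le zero_le_one (min_le_left _ _)
  lk := by
    have e0 : LK 1 (fun _ : VV d => (0 : ℝ)) := fun x y => by simp
    have e1 : LK 1 (fun _ : VV d => (1 : ℝ)) := fun x y => by simp
    have e2 : LK 1 (fun y : VV d => (n : ℝ) + 1 - ‖y‖) := fun x y => by
      have : ‖y‖ - ‖x‖ ≤ dist x y := by
        rw [dist_comm, dist_eq_norm]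
        exact norm_sub_norm_le y x
      beta_reduce
      linarith
    exact e0.max (e1.min e2)
  L0 := zero_le_one

lemma ballCut_supp (n : ℕ) (y : VV d) (h : ballCut n y ≠ 0) : ‖y‖ ≤ n + 1 := by
  by_contra hcon
  push Not at hcon
  apply h
  unfold ballCut
  apply max_eq_left
  exact (min_le_right _ _).trans (by linarith)

lemma ballCut_one (n : ℕ) (y : VV d) (h : ‖y‖ ≤ n) : ballCut n y = 1 := by
  unfold ballCut
  rw [min_eq_left (by linarith), max_eq_right zero_le_one]

/-- the tent function -/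
noncomputable def tent (t δ u : ℝ) : ℝ := hinge t u - 2 * hinge (t + δ) u + hinge (t + 2 * δ) u

lemma tent_eq {t δ : ℝ} (hδ : 0 ≤ δ) (u : ℝ) : tent t δ u = max 0 (δ - |u - (t + δ)|) := by
  unfold tent hinge
  rcases le_total (u - (t + δ)) 0 with h1 | h1
  · rw [abs_of_nonpos h1, max_eq_right h1, max_eq_right (show u - (t + 2 * δ) ≤ 0 by linarith)]
    rw [max_comm]
    have : δ - -(u - (t + δ)) = u - t := by ring
    rw [this]; ring
  · rw [abs_of_nonneg h1, max_eq_left h1, max_eq_left (show 0 ≤ u - t by linarith)]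
    rcases le_total (u - (t + 2 * δ)) 0 with h2 | h2
    · rw [max_eq_right h2, max_eq_right (show 0 ≤ δ - (u - (t + δ)) by linarith)]; ring
    · rw [max_eq_left h2, max_eq_left (show δ - (u - (t + δ)) ≤ 0 by linarith)]; ring

lemma tent_nonneg {t δ : ℝ} (hδ : 0 ≤ δ) (u : ℝ) : 0 ≤ tent t δ u := by
  rw [tent_eq hδ]; exact le_max_left _ _

lemma tent_le {t δ : ℝ} (hδ : 0 ≤ δ) (u : ℝ) : tent t δ u ≤ δ := by
  rw [tent_eq hδ]
  apply max_le hδ
  have := abs_nonneg (u - (t + δ))
  linarith

lemma tent_zero {t δ : ℝ} (hδ : 0 ≤ δ) {u : ℝ} (h : u ≤ t ∨ t + 2 * δ ≤ u) : tent t δ u = 0 := by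
  rw [tent_eq hδ]
  apply max_eq_left
  rcases h with h | h
  · rw [abs_of_nonpos (by linarith)]; linarith
  · rw [abs_of_nonneg (by linarith)]; linarith

lemma LK_tent {t δ : ℝ} (hδ : 0 ≤ δ) : LK 1 (tent t δ) := by
  have e : tent t δ = fun u => max 0 (δ - |u - (t + δ)|) := funext (tent_eq hδ)
  rw [e]
  have e0 : LK 1 (fun _ : ℝ => (0 : ℝ)) := fun x y => by simp
  have e2 : LK 1 (fun u : ℝ => δ - |u - (t + δ)|) := fun x y => by
    rw [Real.dist_eq, one_mul]
    have h1 := abs_abs_sub_abs_le_abs_sub (y - (t + δ)) (x - (t + δ))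
    have h2 := le_abs_self (|y - (t + δ)| - |x - (t + δ)|)
    have h3 : y - (t + δ) - (x - (t + δ)) = y - x := by ring
    rw [h3, abs_sub_comm y x] at h1
    beta_reduce
    linarith
  exact e0.max e2

end Pool.Agent.W2helper23.LR1
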