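import Mathlib
import Pool.Agent.W2helper23.LR1.Locz

set_option autoImplicit false

open MeasureTheory Set Filter Topology

namespace Pool.Agent.W2helper23.LR1

open Pool.Agent.Helper23K9.LR
open Pool.Agent.Helper23K9.LR.Rel (hinge LK_hinge_real)

variable {d : ℕ} {S : Rel (VV d)}

/-- the preimage of the tent -/
noncomputable def Data.E {k : Fin d} (Dk : Data S k) (t δ : ℝ) (u : ℝ) : ℝ :=
  Dk.F t u - 2 * Dk.F (t + δ) u + Dk.F (t + 2 * δ) u

lemma Data.R_E {k : Fin d} (Dk : Data S k) (t δ : ℝ) :
    S.R (fun x : VV d => Dk.E t δ (x k)) (fun y => tent t δ (bb S k y)) := by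
  unfold Data.E tent
  exact Rel.add (Rel.sub (Dk.hF t) (Rel.smul (Dk.hF (t + δ)) 2)) (Dk.hF (t + 2 * δ))

lemma Data.LK_E {k : Fin d} (Dk : Data S k) (t : ℝ) {δ : ℝ} (hδ : 0 ≤ δ) : LK 1 (Dk.E t δ) :=
  LK_of_comp_coord k ((S.iso (Dk.R_E t δ) 1).2 (LK_comp_bb S zero_le_one (LK_tent hδ) k))

lemma Data.deriv_E {k : Fin d} (Dk : Data S k) (t δ : ℚ) (hδ : 0 < δ) {u : ℝ} (hu : u ∈ Dk.D)
    (h1 : (t : ℝ) < Dk.B u) (h2 : Dk.B u < (t : ℝ) + δ) : HasDerivAt (Dk.E t δ) 1 u := by
  have hδ' : (0 : ℝ) < δ := by exact_mod_cast hδ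
  have e1 := Dk.one u hu t h1
  have e2 := Dk.zero u hu (t + δ) (by push_cast; exact h2)
  have e3 := Dk.zero u hu (t + 2 * δ) (by push_cast; linarith)
  push_cast at e2 e3
  have := (e1.sub (e2.const_mul 2)).add e3
  rw [mul_zero, sub_zero, add_zero] at this
  exact this

/-- the parametric integral of a Lipschitz function -/
lemma LK_paramInt {q : VV d → ℝ} {K : ℝ} (hq : LK K q) (x : VV d) {i k : Fin d} (hik : i ≠ k) {v0 v1 : ℝ}
    (hv : v0 ≤ v1) : LK ((v1 - v0) * K) (fun u => ∫ v in v0..v1, q (st (st x k u) i v)) := by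
  intro u u'
  have hc : ∀ u, Continuous (fun v => q (st (st x k u) i v)) := fun u => (LK_st_line hq _ i).continuous
  beta_reduce
  rw [← intervalIntegral.integral_sub ((hc _).intervalIntegrable _ _) ((hc _).intervalIntegrable _ _)]
  calc ∫ v in v0..v1, (q (st (st x k u) i v) - q (st (st x k u') i v))
      ≤ ∫ v in v0..v1, K * dist u u' := by
        apply intervalIntegral.integral_mono_on hv
        · exact ((hc _).sub (hc _)).intervalIntegrable _ _
        · exact intervalIntegrable_const
        · intro v _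
          have := hq (st (st x k u) i v) (st (st x k u') i v)
          rw [st_comm x hik.symm, st_comm x hik.symm, dist_st, ← Real.dist_eq] at this
          rwa [st_comm x hik.symm, st_comm x hik.symm]
    _ = (v1 - v0) * K * dist u u' := by
        rw [intervalIntegral.integral_const, smul_eq_mul]; ring

/-- Locality. -/
theorem loc {i k : Fin d} (hik : i ≠ k) (Dk : Data S k) {s r : ℝ} (hr : 0 < r) {G f : VV d → ℝ} (hG : LK 1 G)
    (hG0 : ∀ y, |bb S k y - s| < 2 * r → G y = 0) (hf : S.R f G) (x : VV d) {v0 v1 : ℝ} (hv : v0 ≤ v1) :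
    ∀ᵐ u, |Dk.B u - s| < r → f (st (st x k u) i v1) = f (st (st x k u) i v0) := by
  set J : ℝ := v1 - v0 with hJ
  have hJ0 : 0 ≤ J := sub_nonneg.2 hv
  set L : ℝ := 1 + 1 / r with hL
  have hL0 : 0 ≤ L := by positivity
  have hfL : LK 1 f := (S.iso hf 1).2 hG
  set D : ℝ → ℝ := fun u => |f (st (st x k u) i v1) - f (st (st x k u) i v0)| with hD
  have hDc : Continuous D := by
    have h1 : ∀ v, Continuous (fun u => f (st (st x k u) i v)) := by
      intro v
      have e : (fun u => f (st (st x k u) i v)) = fun u => f (st (st x i v) k u) := by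
        funext u
        rw [st_comm x hik.symm]
      rw [e]
      exact (LK_st_line hfL _ k).continuous
    exact ((h1 v1).sub (h1 v0)).abs
  have hDb : ∀ u, |D u| ≤ J := by
    intro u
    rw [hD]
    simp only [abs_abs]
    have := hfL.abs (st (st x k u) i v1) (st (st x k u) i v0)
    rw [dist_st, one_mul, abs_of_nonneg hJ0] at this
    exact this
  -- the cut-offs
  set a : ℕ → VV d → ℝ := fun n y => ballCut n y * trap s r (bb S k y) with ha
  have htrap : Cut (fun y : VV d => trap s r (bb S k y)) (1 / r) := by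
    refine ⟨fun y => (trap_cut hr).nn _, fun y => (trap_cut hr).le _, ?_, (trap_cut (s := s) hr).L0⟩
    exact LK_comp_bb S (by positivity) (trap_cut hr).lk k
  have hacut : ∀ n, Cut (a n) L := fun n => (ballCut_cut n).mul htrap
  have hasupp : ∀ n y, a n y ≠ 0 → ‖y‖ ≤ n + 1 := fun n y h => ballCut_supp n y (left_ne_zero_of_mul h)
  have hadisj : ∀ n y, a n y = 0 ∨ G y = 0 := by
    intro n y
    by_cases h : |bb S k y - s| < 2 * r
    · right; exact hG0 y h
    · left
      push Not at h
      rw [ha]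
      simp only
      rw [trap_zero hr h, mul_zero]
  -- the estimate for one tent
  have key : ∀ t δ : ℚ, 0 < δ → s - r ≤ t → (t : ℝ) + 2 * δ ≤ s + r →
      ∀ᵐ u, (t : ℝ) < Dk.B u → Dk.B u < (t : ℝ) + δ → D u ≤ J * (L * δ) := by
    intro t δ hδ ht1 ht2
    have hδ' : (0 : ℝ) < δ := by exact_mod_cast hδ
    have hE := Dk.LK_E t hδ'.le
    -- the functions `q n`
    have hbd : ∀ n y, a n y ≠ 0 → |tent t δ (bb S k y)| ≤ δ := fun n y _ => by
      rw [abs_of_nonneg (tent_nonneg hδ'.le _)]
      exact tent_le hδ'.le _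
    have hLh : LK 1 (fun y => tent t δ (bb S k y)) := LK_comp_bb S zero_le_one (LK_tent hδ'.le) k
    have hqex : ∀ n, ∃ q, S.R q (fun y => a n y * tent t δ (bb S k y)) := fun n =>
      S.surj _ ⟨_, LK_mul_cut (hacut n) hδ'.le (hbd n) zero_le_one hLh⟩
    choose q hq using hqex
    have hqL : ∀ n, LK (1 + L * δ) (q n) := fun n =>
      (S.iso (hq n) _).2 (LK_mul_cut (hacut n) hδ'.le (hbd n) zero_le_one hLh)
    have hw : ∀ n, W S (a n) δ (fun x => Dk.E t δ (x k)) (fun y => tent t δ (bb S k y)) (q n) := fun n =>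
      ⟨Dk.R_E t δ, hbd n, hq n⟩
    -- convergence
    have hlim : ∀ z z', Tendsto (fun n => q n z - q n z') atTop (𝓝 (Dk.E t δ (z k) - Dk.E t δ (z' k))) := by
      apply S.cont' q (fun n y => a n y * tent t δ (bb S k y)) (fun x => Dk.E t δ (x k))
        (fun y => tent t δ (bb S k y)) (1 + L * δ) hq hqL (Dk.R_E t δ)
      intro y y'
      have hev : ∀ y, ∀ᶠ n in atTop, a n y * tent t δ (bb S k y) = tent t δ (bb S k y) := by
        intro y
        obtain ⟨N, hN⟩ := exists_nat_ge ‖y‖
        filter_upwards [eventually_ge_atTop N] with n hn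
        have hn' : (N : ℝ) ≤ n := by exact_mod_cast hn
        by_cases h0 : tent t δ (bb S k y) = 0
        · rw [h0, mul_zero]
        · have h1 : ¬ (bb S k y ≤ t ∨ t + 2 * δ ≤ bb S k y) := fun h => h0 (tent_zero hδ'.le h)
          push Not at h1
          rw [ha]
          simp only
          rw [ballCut_one n y (hN.trans hn'), trap_one hr (by rw [abs_le]; constructor <;> linarith [h1.1, h1.2]),
            one_mul, one_mul]
      apply tendsto_const_nhds.congr'
      filter_upwards [hev y, hev y'] with n h1 h2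
      rw [h1, h2]
    -- the parametric integrals
    set Q : ℕ → ℝ → ℝ := fun n u => ∫ v in v0..v1, q n (st (st x k u) i v) with hQ
    have hQL : ∀ n, LK (J * (1 + L * δ)) (Q n) := fun n => LK_paramInt (hqL n) x hik hv
    have hQlim : ∀ u u', Tendsto (fun n => Q n u - Q n u') atTop (𝓝 (J * Dk.E t δ u - J * Dk.E t δ u')) := by
      intro u u'
      have hc : ∀ n u, Continuous (fun v => q n (st (st x k u) i v)) := fun n u => (LK_st_line (hqL n) _ i).continuous
      have e1 : ∀ n, Q n u - Q n u' = ∫ v in v0..v1, (q n (st (st x k u) i v) - q n (st (st x k u') i v)) := by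
        intro n
        rw [hQ]
        simp only
        rw [← intervalIntegral.integral_sub ((hc _ _).intervalIntegrable _ _) ((hc _ _).intervalIntegrable _ _)]
      have e2 : J * Dk.E t δ u - J * Dk.E t δ u' = ∫ v in v0..v1, (Dk.E t δ u - Dk.E t δ u') := by
        rw [intervalIntegral.integral_const, smul_eq_mul, hJ]; ring
      simp only [e1]
      rw [e2]
      apply intervalIntegral.tendsto_integral_filter_of_dominated_convergence (fun _ => (1 + L * δ) * |u - u'|)
      · filter_upwards with n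
        exact ((hc _ _).sub (hc _ _)).aestronglyMeasurable
      · filter_upwards with n
        filter_upwards with v _
        rw [Real.norm_eq_abs]
        have := (hqL n).abs (st (st x k u) i v) (st (st x k u') i v)
        rw [st_comm x hik.symm, st_comm x hik.symm, dist_st] at this
        rwa [st_comm x hik.symm, st_comm x hik.symm]
      · exact intervalIntegrable_const
      · filter_upwards with v _
        have := hlim (st (st x k u) i v) (st (st x k u') i v)
        rw [st_ne _ hik.symm, st_ne _ hik.symm, st_same, st_same] at this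
        exact this
    -- the bounds for the derivatives
    have hP : MeasurableSet {u | (t : ℝ) < Dk.B u ∧ Dk.B u < (t : ℝ) + δ} :=
      (measurableSet_lt measurable_const Dk.hB).inter (measurableSet_lt Dk.hB measurable_const)
    have h1 : ∀ n, ∀ᵐ u, u ∈ {u | (t : ℝ) < Dk.B u ∧ Dk.B u < (t : ℝ) + δ} →
        deriv (Q n) u ≤ J * (1 + L * δ) - D u := by
      intro n
      filter_upwards [ae_diff_LK (hQL n), Dk.hD] with u hu1 hu2 hu3
      have h2 := Dk.deriv_E t δ hδ hu2 hu3.1 hu3.2
      have h3 := integrated (hacut n) (hasupp n) hik hδ'.le hE (hw n) (hqL n) hf hG (hadisj n) x hv h2 hu1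
      rw [hD]
      simp only
      linarith
    have h2 := lim_deriv (Q0 := fun u => J * Dk.E t δ u) (C := J * (1 + L * δ)) (by positivity) hQL hQlim hP
      (M := fun u => J * (1 + L * δ) - D u) (measurable_const.sub hDc.measurable)
      (B := J * (1 + L * δ) + J) (fun u => by
        have h4 := abs_le.1 (hDb u)
        have h5 : 0 ≤ J * (1 + L * δ) := by positivity
        rw [abs_le]
        constructor <;> linarith [h4.1, h4.2]) h1
    filter_upwards [h2, Dk.hD] with u hu1 hu2 hu3 hu4
    have h3 := (Dk.deriv_E t δ hδ hu2 hu3 hu4).const_mul J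
    have h4 := hu1 ⟨hu3, hu4⟩
    rw [h3.deriv] at h4
    linarith
  -- all tents
  have hall : ∀ᵐ u, ∀ t δ : ℚ, 0 < δ → s - r ≤ t → (t : ℝ) + 2 * δ ≤ s + r →
      (t : ℝ) < Dk.B u → Dk.B u < (t : ℝ) + δ → D u ≤ J * (L * δ) := by
    rw [ae_all_iff]
    intro t
    rw [ae_all_iff]
    intro δ
    by_cases h : 0 < δ ∧ s - r ≤ t ∧ (t : ℝ) + 2 * δ ≤ s + r
    · filter_upwards [key t δ h.1 h.2.1 h.2.2] with u hu _ _ _
      exact hu
    · filter_upwards with u h1 h2 h3
      exact absurd ⟨h1, h2, h3⟩ h
  filter_upwards [hall] with u hu hus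
  rw [abs_lt] at hus
  have hD0 : D u ≤ 0 := by
    apply le_of_forall_pos_le_add
    intro ε hε
    rw [zero_add]
    set m : ℝ := min (ε / (J * L + 1)) ((s + r - Dk.B u) / 2) with hm
    have hm0 : 0 < m := by
      apply lt_min
      · positivity
      · linarith [hus.2]
    obtain ⟨δ, hδ1, hδ2⟩ := exists_rat_btwn hm0
    obtain ⟨t, ht1, ht2⟩ := exists_rat_btwn (show max (s - r) (Dk.B u - δ) < Dk.B u from
      max_lt (by linarith [hus.1]) (by linarith))
    have k1 := (le_max_left _ _).trans_lt ht1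
    have k2 := (le_max_right _ _).trans_lt ht1
    have k3 : m ≤ (s + r - Dk.B u) / 2 := min_le_right _ _
    have k4 : m ≤ ε / (J * L + 1) := min_le_left _ _
    have h1 := hu t δ (by exact_mod_cast hδ1) k1.le (by linarith) ht2 (by linarith)
    have h2 : J * L * δ ≤ ε := by
      have h3 : (δ : ℝ) ≤ ε / (J * L + 1) := hδ2.le.trans k4
      rw [le_div_iff₀ (by positivity)] at h3
      nlinarith
    linarith
  have := le_antisymm hD0 (abs_nonneg _)
  exact sub_eq_zero.1 (abs_eq_zero.1 this)

end Pool.Agent.W2helper23.LR1
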