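import Mathlib
import Pool.Agent.W2helper23.LR1.Local

set_option autoImplicit false

open MeasureTheory Set Filter Topology

namespace Pool.Agent.W2helper23.LR1

open Pool.Agent.Helper23K9.LR
open Pool.Agent.Helper23K9.LR.Rel (hinge LK_hinge_real)

lemma LK_mul_bdd {M : Type*} [PseudoMetricSpace M] {u v : M → ℝ} {Bu Bv Ku Kv : ℝ} (hu : LK Ku u)
    (hv : LK Kv v) (bu : ∀ y, |u y| ≤ Bu) (bv : ∀ y, |v y| ≤ Bv) :
    LK (Bu * Kv + Bv * Ku) (fun y => u y * v y) := by
  intro x y
  beta_reduce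
  have e : u x * v x - u y * v y = u x * (v x - v y) + (u x - u y) * v y := by ring
  rw [e]
  have k1 : u x * (v x - v y) ≤ Bu * (Kv * dist x y) := by
    calc u x * (v x - v y) ≤ |u x * (v x - v y)| := le_abs_self _
      _ = |u x| * |v x - v y| := abs_mul _ _
      _ ≤ Bu * (Kv * dist x y) := mul_le_mul (bu x) (hv.abs x y) (abs_nonneg _) ((abs_nonneg _).trans (bu x))
  have k2 : (u x - u y) * v y ≤ (Ku * dist x y) * Bv := by
    calc (u x - u y) * v y ≤ |(u x - u y) * v y| := le_abs_self _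
      _ = |u x - u y| * |v y| := abs_mul _ _
      _ ≤ (Ku * dist x y) * Bv :=
        mul_le_mul (hu.abs x y) (bv y) (abs_nonneg _) ((abs_nonneg _).trans (hu.abs x y))
  nlinarith

lemma Cut.abs_le_one {M : Type*} [PseudoMetricSpace M] {a : M → ℝ} {L : ℝ} (h : Cut a L) (y : M) : |a y| ≤ 1 := by
  rw [abs_of_nonneg (h.nn y)]; exact h.le y

variable {d : ℕ} {S : Rel (VV d)}

/-- the module property on one strip -/
lemma modl_strip {i k : Fin d} (hik : i ≠ k) (Dk : Data S k) {A : ℝ → ℝ} {LA : ℝ} (hA : Cut A LA)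
    {H : VV d → ℝ} {LH : ℝ} (hH : Cut H LH) {fH f' : VV d → ℝ} (h1 : S.R fH H)
    (h2 : S.R f' (fun y => A (bb S k y) * H y)) (x : VV d) {v0 v1 : ℝ} (hv : v0 ≤ v1) {s r : ℝ} (hr : 0 < r) :
    ∀ᵐ u, |Dk.B u - s| < r →
      |(f' (st (st x k u) i v1) - f' (st (st x k u) i v0)) -
        A (Dk.B u) * (fH (st (st x k u) i v1) - fH (st (st x k u) i v0))| ≤ 3 * LA * LH * (v1 - v0) * r := by
  have hLA := hA.L0
  have hLH := hH.L0
  have hJ : 0 ≤ v1 - v0 := sub_nonneg.2 hv
  set c : ℝ := A s with hc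
  set δ : ℝ := 2 * r * LA with hδ
  have hδ0 : 0 ≤ δ := by positivity
  set A' : ℝ → ℝ := fun t => max (min (A t - c) δ) (-δ) with hA'
  have hA'b : ∀ t, |A' t| ≤ δ := by
    intro t
    rw [abs_le]
    exact ⟨le_max_right _ _, max_le (min_le_right _ _) (by linarith)⟩
  have hA'eq : ∀ t, |t - s| < 2 * r → A' t = A t - c := by
    intro t ht
    have h3 := hA.lk.abs t s
    rw [Real.dist_eq] at h3
    have h4 : |A t - c| ≤ δ := by
      refine h3.trans ?_
      rw [hδ]
      nlinarith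
    rw [abs_le] at h4
    rw [hA']
    simp only
    rw [min_eq_left h4.2, max_eq_left h4.1]
  have hcst : ∀ {M : Type} [PseudoMetricSpace M] (c : ℝ), LK LA (fun _ : M => c) := by
    intro M _ c x y
    have : 0 ≤ LA * dist x y := mul_nonneg hLA dist_nonneg
    simpa using this
  have LA' : LK LA A' := by
    have e1 : LK LA (fun t => A t - c) := fun t t' => by
      have := hA.lk t t'
      beta_reduce
      linarith
    exact (e1.min (hcst _)).max (hcst _)
  -- the first part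
  set G1 : VV d → ℝ := fun y => (A (bb S k y) - c - A' (bb S k y)) * H y with hG1
  have L1 : LK (LA + LA) (fun y => A (bb S k y) - c - A' (bb S k y)) := by
    have e1 := LK_comp_bb S hLA hA.lk k
    have e2 := LK_comp_bb S hLA LA' k
    intro y y'
    have := e1 y y'
    have := e2 y' y
    rw [dist_comm] at this
    beta_reduce at *
    rw [add_mul]
    linarith
  have B1 : ∀ y, |A (bb S k y) - c - A' (bb S k y)| ≤ 2 + δ := by
    intro y
    have e1 := hA.abs_le_one (bb S k y)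
    have e2 := hA.abs_le_one s
    have e3 := hA'b (bb S k y)
    rw [abs_le] at *
    constructor <;> linarith [e1.1, e1.2, e2.1, e2.2, e3.1, e3.2]
  have LG1 : LK ((2 + δ) * LH + 1 * (LA + LA)) G1 := LK_mul_bdd L1 hH.lk B1 hH.abs_le_one
  set κ : ℝ := (2 + δ) * LH + 1 * (LA + LA) + 1 with hκ
  have hκ0 : 0 < κ := by positivity
  obtain ⟨f1, hf1⟩ := S.surj G1 ⟨_, LG1⟩
  have hG1s : LK 1 (fun y => κ⁻¹ * G1 y) := by
    have := LG1.const_mul κ⁻¹
    apply this.mono
    rw [abs_of_pos (inv_pos.2 hκ0), inv_mul_le_iff₀ hκ0]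
    linarith
  have hloc := loc hik Dk hr hG1s (fun y hy => by
    rw [hG1]
    simp only
    rw [hA'eq _ hy, sub_self, zero_mul, mul_zero]) (Rel.smul hf1 κ⁻¹) x hv
  -- the second part
  obtain ⟨E, hE⟩ := exists_ridge S LA' k
  have LE : LK LA E := LK_of_comp_coord k ((S.iso hE LA).2 (LK_comp_bb S hLA LA' k))
  have LG2 : LK (LA + LH * δ) (fun y => H y * A' (bb S k y)) :=
    LK_mul_cut hH hδ0 (fun y _ => hA'b _) hLA (LK_comp_bb S hLA LA' k)
  obtain ⟨f2, hf2⟩ := S.surj _ ⟨_, LG2⟩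
  have hW : W S H δ (fun x => E (x k)) (fun y => A' (bb S k y)) f2 := ⟨hE, fun y _ => hA'b _, hf2⟩
  have hLAlin : LK LA (fun u : ℝ => LA * u) := LK_lin (abs_of_nonneg hLA).le
  have e1 : LK (LA + LH * δ) (fun x : VV d => LA * x i + f2 x) :=
    hW.ineq hH hδ0 (LK_comp_coord hLA hLAlin i) (LK_two_coord hLA hLAlin LE hik)
  have e2 : LK (LA + LH * δ) (fun x : VV d => -(LA * x i) + f2 x) :=
    hW.ineq hH hδ0 (f := fun x => -(LA * x i)) (LK_comp_coord hLA hLAlin.neg i)
      (LK_two_coord (φ := fun u => -(LA * u)) hLA hLAlin.neg LE hik)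
  -- the sum
  have hsum : S.R (fun x => c * fH x + f1 x + f2 x) (fun y => A (bb S k y) * H y) := by
    refine S.congr (Rel.add (Rel.add (Rel.smul h1 c) hf1) hf2) (fun _ _ => rfl) (fun y y' => ?_)
    rw [hG1]
    ring
  have hLfH : LK LH fH := (S.iso h1 LH).2 hH.lk
  filter_upwards [hloc] with u hu hus
  have k1 := hu hus
  have k2 : f1 (st (st x k u) i v1) = f1 (st (st x k u) i v0) := mul_left_cancel₀ (inv_pos.2 hκ0).ne' k1
  have k3 := small_incr i e1 e2 (st x k u) v1 v0
  rw [abs_of_nonneg hJ] at k3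
  have k4 := Rel.uniq' h2 hsum (st (st x k u) i v1) (st (st x k u) i v0)
  beta_reduce at k4
  have k5 := hLfH.abs (st (st x k u) i v1) (st (st x k u) i v0)
  rw [dist_st, abs_of_nonneg hJ] at k5
  have k6 := hA.lk.abs s (Dk.B u)
  rw [Real.dist_eq, abs_sub_comm s] at k6
  have k7 : |(A s - A (Dk.B u)) * (fH (st (st x k u) i v1) - fH (st (st x k u) i v0))| ≤
      (LA * r) * (LH * (v1 - v0)) := by
    rw [abs_mul]
    apply mul_le_mul _ k5 (abs_nonneg _) (by positivity)
    exact k6.trans (mul_le_mul_of_nonneg_left hus.le hLA)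
  have k8 : (f' (st (st x k u) i v1) - f' (st (st x k u) i v0)) -
      A (Dk.B u) * (fH (st (st x k u) i v1) - fH (st (st x k u) i v0)) =
      (A s - A (Dk.B u)) * (fH (st (st x k u) i v1) - fH (st (st x k u) i v0)) +
      (f2 (st (st x k u) i v1) - f2 (st (st x k u) i v0)) := by
    rw [k4, k2, hc]; ring
  rw [k8]
  refine (abs_add_le _ _).trans ?_
  rw [hδ] at k3
  nlinarith

/-- The module property. -/
theorem modl {i k : Fin d} (hik : i ≠ k) (Dk : Data S k) {A : ℝ → ℝ} {LA : ℝ} (hA : Cut A LA)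
    {H : VV d → ℝ} {LH : ℝ} (hH : Cut H LH) {fH f' : VV d → ℝ} (h1 : S.R fH H)
    (h2 : S.R f' (fun y => A (bb S k y) * H y)) (x : VV d) {v0 v1 : ℝ} (hv : v0 ≤ v1) :
    ∀ᵐ u, f' (st (st x k u) i v1) - f' (st (st x k u) i v0) =
        A (Dk.B u) * (fH (st (st x k u) i v1) - fH (st (st x k u) i v0)) := by
  have hLA := hA.L0
  have hLH := hH.L0
  have hJ : 0 ≤ v1 - v0 := sub_nonneg.2 hv
  have hall : ∀ᵐ u, ∀ s r : ℚ, 0 < r → |Dk.B u - s| < r →
      |(f' (st (st x k u) i v1) - f' (st (st x k u) i v0)) -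
        A (Dk.B u) * (fH (st (st x k u) i v1) - fH (st (st x k u) i v0))| ≤ 3 * LA * LH * (v1 - v0) * r := by
    rw [ae_all_iff]
    intro s
    rw [ae_all_iff]
    intro r
    by_cases hr : 0 < r
    · filter_upwards [modl_strip hik Dk hA hH h1 h2 x hv (s := s) (show (0 : ℝ) < r by exact_mod_cast hr)] with u hu _
      exact hu
    · filter_upwards with u h
      exact absurd h hr
  filter_upwards [hall] with u hu
  have h0 : |(f' (st (st x k u) i v1) - f' (st (st x k u) i v0)) -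
        A (Dk.B u) * (fH (st (st x k u) i v1) - fH (st (st x k u) i v0))| ≤ 0 := by
    apply le_of_forall_pos_le_add
    intro ε hε
    rw [zero_add]
    obtain ⟨r, hr1, hr2⟩ := exists_rat_btwn (show (0 : ℝ) < ε / (3 * LA * LH * (v1 - v0) + 1) by positivity)
    obtain ⟨s, hs1, hs2⟩ := exists_rat_btwn (show Dk.B u - r < Dk.B u by linarith)
    have k1 := hu s r (by exact_mod_cast hr1) (by rw [abs_lt]; constructor <;> linarith)
    rw [lt_div_iff₀ (by positivity)] at hr2
    nlinarith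
  exact sub_eq_zero.1 (abs_eq_zero.1 (le_antisymm h0 (abs_nonneg _)))

end Pool.Agent.W2helper23.LR1
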