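import Mathlib
import Pool.Agent.W2helper23.LR1.Modl

set_option autoImplicit false

open MeasureTheory Set Filter Topology

namespace Pool.Agent.W2helper23.LR1

open Pool.Agent.Helper23K9.LR
open Pool.Agent.Helper23K9.LR.Rel (hinge LK_hinge_real hinge_lt hinge_gt)

variable {d : ℕ} {S : Rel (VV d)}

lemma cut_bb {A : ℝ → ℝ} {LA : ℝ} (hA : Cut A LA) (S : Rel (VV d)) (k : Fin d) : Cut (fun y => A (bb S k y)) LA where
  nn := fun _ => hA.nn _
  le := fun _ => hA.le _
  lk := LK_comp_bb S hA.L0 hA.lk k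
  L0 := hA.L0

lemma continuous_of_R {f G : VV d → ℝ} {K : ℝ} (h : S.R f G) (hG : LK K G) : Continuous f :=
  ((S.iso h K).2 hG).continuous

/-- the module property for all pairs of values -/
theorem modl_all {i k : Fin d} (hik : i ≠ k) (Dk : Data S k) {A : ℝ → ℝ} {LA : ℝ} (hA : Cut A LA)
    {H : VV d → ℝ} {LH : ℝ} (hH : Cut H LH) {fH f' : VV d → ℝ} (h1 : S.R fH H)
    (h2 : S.R f' (fun y => A (bb S k y) * H y)) (x : VV d) :
    ∀ᵐ u, ∀ v0 v1, f' (st (st x k u) i v1) - f' (st (st x k u) i v0) =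
        A (Dk.B u) * (fH (st (st x k u) i v1) - fH (st (st x k u) i v0)) := by
  have hq : ∀ᵐ u, ∀ q : ℚ, f' (st (st x k u) i q) - f' (st (st x k u) i 0) =
        A (Dk.B u) * (fH (st (st x k u) i q) - fH (st (st x k u) i 0)) := by
    rw [ae_all_iff]
    intro q
    rcases le_total (0 : ℝ) q with h | h
    · exact modl hik Dk hA hH h1 h2 x h
    · filter_upwards [modl hik Dk hA hH h1 h2 x h] with u hu
      linarith
  have c1 : Continuous f' := continuous_of_R h2 ((cut_bb hA S k).mul hH).lk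
  have c2 : Continuous fH := continuous_of_R h1 hH.lk
  filter_upwards [hq] with u hu
  have h3 : (fun v : ℝ => f' (st (st x k u) i v) - f' (st (st x k u) i 0)) =
      fun v => A (Dk.B u) * (fH (st (st x k u) i v) - fH (st (st x k u) i 0)) := by
    apply Continuous.ext_on Rat.denseRange_cast
    · have := c1.comp (continuous_st (st x k u) i)
      exact this.sub continuous_const
    · have := c2.comp (continuous_st (st x k u) i)
      exact (this.sub continuous_const).const_mul _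
    · rintro _ ⟨q, rfl⟩
      exact hu q
  intro v0 v1
  have h4 := congrFun h3 v1
  have h5 := congrFun h3 v0
  beta_reduce at h4 h5
  linarith

/-- The functional equation. -/
theorem fe {i k : Fin d} (hik : i ≠ k) (Di : Data S i) (Dk : Data S k) {A C : ℝ → ℝ} {LA LC : ℝ} (hA : Cut A LA)
    (hC : Cut C LC) {FA FC : ℝ → ℝ} (hFA : S.R (fun x => FA (x k)) (fun y => A (bb S k y)))
    (hFC : S.R (fun x => FC (x i)) (fun y => C (bb S i y))) :
    ∃ U V : Set ℝ, (∀ᵐ u, u ∈ U) ∧ (∀ᵐ v, v ∈ V) ∧ ∀ u ∈ U, ∀ u' ∈ U, ∀ v ∈ V, ∀ v' ∈ V,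
      (A (Dk.B u') - A (Dk.B u)) * (FC v' - FC v) = (C (Di.B v') - C (Di.B v)) * (FA u' - FA u) := by
  have hki := hik.symm
  obtain ⟨f, hf⟩ := S.surj (fun y => A (bb S k y) * C (bb S i y)) ⟨_, ((cut_bb hA S k).mul (cut_bb hC S i)).lk⟩
  have hf' : S.R f (fun y => C (bb S i y) * A (bb S k y)) := by
    refine S.congr hf (fun _ _ => rfl) (fun y y' => by ring)
  have m1 := modl_all hik Dk hA (cut_bb hC S i) hFC hf 0
  have m2 := modl_all hki Di hC (cut_bb hA S k) hFA hf' 0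
  simp only [st_same] at m1 m2
  refine ⟨_, _, m1, m2, fun u hu u' hu' v hv v' hv' => ?_⟩
  have e1 := hu v v'
  have e2 := hu' v v'
  have e3 := hv u u'
  have e4 := hv' u u'
  rw [st_comm 0 hik, st_comm 0 hik] at e3 e4
  linarith

/-- the normalised clips -/
noncomputable def An (n : ℕ) (t : ℝ) : ℝ := (2 * ((n : ℝ) + 1))⁻¹ * clip (-((n : ℝ) + 1)) ((n : ℝ) + 1) t

lemma An_cut (n : ℕ) : Cut (An n) ((2 * ((n : ℝ) + 1))⁻¹) := by
  have hn : (0 : ℝ) < 2 * ((n : ℝ) + 1) := by positivity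
  have hle : -((n : ℝ) + 1) ≤ (n : ℝ) + 1 := by linarith
  refine ⟨fun y => mul_nonneg (inv_pos.2 hn).le (clip_nonneg hle y), fun y => ?_, ?_, (inv_pos.2 hn).le⟩
  · unfold An
    rw [inv_mul_le_iff₀ hn]
    have := clip_le hle y
    linarith
  · have := (LK_clip hle).const_mul (2 * ((n : ℝ) + 1))⁻¹
    rw [abs_of_pos (inv_pos.2 hn), mul_one] at this
    exact this

/-- its preimage -/
noncomputable def Data.Fn {k : Fin d} (Dk : Data S k) (n : ℕ) (u : ℝ) : ℝ :=
  (2 * ((n : ℝ) + 1))⁻¹ * (Dk.F (-((n : ℝ) + 1)) u - Dk.F ((n : ℝ) + 1) u)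

lemma Data.R_Fn {k : Fin d} (Dk : Data S k) (n : ℕ) :
    S.R (fun x : VV d => Dk.Fn n (x k)) (fun y => An n (bb S k y)) := by
  unfold Data.Fn An clip
  exact Rel.smul (Rel.sub (Dk.hF _) (Dk.hF _)) _

lemma clip_eq {N t : ℝ} (h : |t| ≤ N) : clip (-N) N t = t + N := by
  rw [abs_le] at h
  unfold clip hinge
  rw [max_eq_left (by linarith), max_eq_right (by linarith)]; ring

lemma An_lim (t t' : ℝ) : ∀ᶠ n : ℕ in atTop, 2 * ((n : ℝ) + 1) * (An n t - An n t') = t - t' := by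
  obtain ⟨N, hN⟩ := exists_nat_ge (max |t| |t'|)
  filter_upwards [eventually_ge_atTop N] with n hn
  have hn' : (N : ℝ) ≤ n := by exact_mod_cast hn
  have h1 : |t| ≤ (n : ℝ) + 1 := by linarith [(le_max_left |t| |t'|).trans hN]
  have h2 : |t'| ≤ (n : ℝ) + 1 := by linarith [(le_max_right |t| |t'|).trans hN]
  unfold An
  rw [clip_eq h1, clip_eq h2]
  have : (2 * ((n : ℝ) + 1)) ≠ 0 := by positivity
  field_simp
  ring

lemma Data.Fn_lim {k : Fin d} (Dk : Data S k) (u u' : ℝ) :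
    Tendsto (fun n : ℕ => 2 * ((n : ℝ) + 1) * (Dk.Fn n u - Dk.Fn n u')) atTop (𝓝 (u - u')) := by
  have h1 := S.cont' (fun n (x : VV d) => 2 * ((n : ℝ) + 1) * Dk.Fn n (x k))
    (fun n y => 2 * ((n : ℝ) + 1) * An n (bb S k y)) (fun x => x k) (bb S k) 1
    (fun n => Rel.smul (Dk.R_Fn n) _) (fun n => by
      refine (S.iso (Rel.smul (Dk.R_Fn n) (2 * ((n : ℝ) + 1))) 1).2 ?_
      have h2 := ((cut_bb (An_cut n) S k).lk).const_mul (2 * ((n : ℝ) + 1))
      have hn : (0 : ℝ) < 2 * ((n : ℝ) + 1) := by positivity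
      rw [abs_of_pos hn, mul_inv_cancel₀ hn.ne'] at h2
      exact h2) (R_bb S k) (fun x y => by
        apply tendsto_const_nhds.congr'
        filter_upwards [An_lim (bb S k x) (bb S k y)] with n hn
        rw [← hn]; ring) (st 0 k u) (st 0 k u')
  simp only [st_same] at h1
  refine h1.congr (fun n => ?_)
  ring

/-- `B` is not almost everywhere constant. -/
lemma B_not_const {k : Fin d} (D : Data S k) {c : ℝ} (h : ∀ᵐ u, D.B u = c) : False := by
  have hSl : ∀ t, Slope (D.F t) := fun t => slope_transfer S k (D.hF t) (slope_hinge t)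
  obtain ⟨x, y, hxy⟩ : ∃ x y, bb S k y < bb S k x := by
    by_contra hcon
    push Not at hcon
    have h1 : LK 0 (bb S k) := fun x y => by
      have := hcon x y
      linarith
    have h2 := (S.iso (R_bb S k) 0).2 h1 (st 0 k 1) (st 0 k 0)
    beta_reduce at h2
    rw [st_same, st_same] at h2
    linarith
  obtain ⟨t, ht1, ht2, ht3⟩ : ∃ t : ℚ, bb S k y < t ∧ (t : ℝ) < bb S k x ∧ (t : ℝ) ≠ c := by
    obtain ⟨t, ht1, ht2⟩ := exists_rat_btwn hxy
    obtain ⟨t', ht1', ht2'⟩ := exists_rat_btwn ht1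
    by_cases hc : (t : ℝ) = c
    · exact ⟨t', ht1', ht2'.trans ht2, by rw [← hc]; exact ht2'.ne⟩
    · exact ⟨t, ht1, ht2, hc⟩
  have hS := hSl t
  rcases lt_or_gt_of_ne ht3 with h3 | h3
  · have e1 : ∀ u v, (fun u => D.F t u - u) u = (fun u => D.F t u - u) v := by
      apply const_of_deriv_zero (K := 2)
      · intro u v
        have := hS.LK.abs u v
        rw [Real.dist_eq] at this ⊢
        have h4 := le_abs_self (D.F t u - D.F t v)
        have h5 := neg_abs_le (u - v)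
        linarith
      · filter_upwards [h, D.hD] with u hu huD
        have := (D.one u huD t (by rw [hu]; exact h3)).sub (hasDerivAt_id u)
        rw [sub_self] at this
        exact this
    have h4 : S.R (fun x : VV d => x k) (fun x => hinge t (bb S k x)) :=
      S.congr (D.hF t) (fun x y => by
        have := e1 (x k) (y k)
        beta_reduce at this
        linarith) (fun _ _ => rfl)
    have h5 := Rel.uniq h4 (R_bb S k) x y
    beta_reduce at h5
    rw [hinge_gt ht2, hinge_lt ht1] at h5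
    linarith
  · have e1 : ∀ u v, D.F t u = D.F t v := by
      apply const_of_deriv_zero hS.LK
      filter_upwards [h, D.hD] with u hu huD
      exact D.zero u huD t (by rw [hu]; exact h3)
    have h4 : S.R (fun _ => 0) (fun x => hinge t (bb S k x)) :=
      S.congr (D.hF t) (fun x y => by
        have := e1 (x k) (y k)
        linarith) (fun _ _ => rfl)
    have h5 := Rel.uniq h4 (S.R_const 0 0) x y
    beta_reduce at h5
    rw [hinge_gt ht2, hinge_lt ht1] at h5
    linarith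

/-- The functions `B` are affine with the same slope. -/
theorem affine_pair {i k : Fin d} (hik : i ≠ k) (Di : Data S i) (Dk : Data S k) :
    ∃ κ c c' : ℝ, κ ≠ 0 ∧ (∀ᵐ u, Dk.B u = κ * u + c) ∧ ∀ᵐ v, Di.B v = κ * v + c' := by
  choose U V hU hV hUV using fun n : ℕ => fe hik Di Dk (An_cut n) (An_cut n) (Dk.R_Fn n) (Di.R_Fn n)
  have hU' : ∀ᵐ u, ∀ n, u ∈ U n := by rw [ae_all_iff]; exact hU
  have hV' : ∀ᵐ v, ∀ n, v ∈ V n := by rw [ae_all_iff]; exact hV
  have key : ∀ u u' v v', (∀ n, u ∈ U n) → (∀ n, u' ∈ U n) → (∀ n, v ∈ V n) → (∀ n, v' ∈ V n) →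
      (Dk.B u' - Dk.B u) * (v' - v) = (Di.B v' - Di.B v) * (u' - u) := by
    intro u u' v v' hu hu' hv hv'
    have l1 : Tendsto (fun n : ℕ => (2 * ((n : ℝ) + 1) * (An n (Dk.B u') - An n (Dk.B u))) *
        (2 * ((n : ℝ) + 1) * (Di.Fn n v' - Di.Fn n v))) atTop (𝓝 ((Dk.B u' - Dk.B u) * (v' - v))) :=
      (tendsto_const_nhds.congr' ((An_lim _ _).mono fun n hn => hn.symm)).mul (Di.Fn_lim v' v)
    have l2 : Tendsto (fun n : ℕ => (2 * ((n : ℝ) + 1) * (An n (Di.B v') - An n (Di.B v))) *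
        (2 * ((n : ℝ) + 1) * (Dk.Fn n u' - Dk.Fn n u))) atTop (𝓝 ((Di.B v' - Di.B v) * (u' - u))) :=
      (tendsto_const_nhds.congr' ((An_lim _ _).mono fun n hn => hn.symm)).mul (Dk.Fn_lim u' u)
    refine tendsto_nhds_unique l1 (l2.congr (fun n => ?_))
    have := hUV n u (hu n) u' (hu' n) v (hv n) v' (hv' n)
    calc (2 * ((n : ℝ) + 1) * (An n (Di.B v') - An n (Di.B v))) * (2 * ((n : ℝ) + 1) * (Dk.Fn n u' - Dk.Fn n u))
        = (2 * ((n : ℝ) + 1)) ^ 2 * ((An n (Di.B v') - An n (Di.B v)) * (Dk.Fn n u' - Dk.Fn n u)) := by ring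
      _ = (2 * ((n : ℝ) + 1)) ^ 2 * ((An n (Dk.B u') - An n (Dk.B u)) * (Di.Fn n v' - Di.Fn n v)) := by rw [this]
      _ = _ := by ring
  -- two different good points
  have two : ∀ {P : ℝ → Prop}, (∀ᵐ v, P v) → ∃ v v', P v ∧ P v' ∧ v' - v ≠ 0 := by
    intro P hP
    obtain ⟨v, h1, h2⟩ := (hP.and (ae_shift hP 1)).exists
    exact ⟨v, v + 1, h1, h2, by ring_nf; exact one_ne_zero⟩
  obtain ⟨v, v', hv, hv', hvv⟩ := two hV'
  obtain ⟨u, u', hu, hu', huu⟩ := two hU'
  set κ : ℝ := (Di.B v' - Di.B v) / (v' - v) with hκ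
  have hκ' : κ = (Dk.B u' - Dk.B u) / (u' - u) := by
    rw [hκ, div_eq_div_iff hvv huu]
    have := key u u' v v' hu hu' hv hv'
    linarith
  have hk : ∀ᵐ w, Dk.B w = κ * w + (Dk.B u - κ * u) := by
    filter_upwards [hU'] with w hw
    have := key u w v v' hu hw hv hv'
    rw [hκ]
    field_simp
    linarith
  have hi : ∀ᵐ w, Di.B w = κ * w + (Di.B v - κ * v) := by
    filter_upwards [hV'] with w hw
    have := key u u' v w hu hu' hv hw
    rw [hκ']
    field_simp
    linarith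
  refine ⟨κ, _, _, ?_, hk, hi⟩
  intro h0
  apply B_not_const Dk (c := Dk.B u - κ * u)
  filter_upwards [hk] with w hw
  rw [h0, zero_mul, zero_add] at hw
  rw [h0]
  exact hw

end Pool.Agent.W2helper23.LR1
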