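import Mathlib
import Pool.Agent.W2helper23.LR1.Affine

set_option autoImplicit false

open MeasureTheory Set Filter Topology

namespace Pool.Agent.W2helper23.LR1

open Pool.Agent.Helper23K9.LR

/-- the little tent -/
noncomputable def tau (n : ℕ) (t : ℝ) : ℝ := max 0 (1 - ((n : ℝ) + 1) * |t|)

lemma tau_cut (n : ℕ) (y : ℝ) : Cut (fun t => tau n (t - y)) ((n : ℝ) + 1) where
  nn := fun _ => le_max_left _ _
  le := fun t => by
    apply max_le zero_le_one
    have : 0 ≤ ((n : ℝ) + 1) * |t - y| := by positivity
    linarith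
  lk := by
    have e0 : LK ((n : ℝ) + 1) (fun _ : ℝ => (0 : ℝ)) := fun x y => by
      have : 0 ≤ ((n : ℝ) + 1) * dist x y := by positivity
      simpa using this
    have e2 : LK ((n : ℝ) + 1) (fun t : ℝ => 1 - ((n : ℝ) + 1) * |t - y|) := fun x x' => by
      rw [Real.dist_eq]
      have h1 := abs_abs_sub_abs_le_abs_sub (x' - y) (x - y)
      have h2 := le_abs_self (|x' - y| - |x - y|)
      have h3 : x' - y - (x - y) = x' - x := by ring
      rw [h3, abs_sub_comm x' x] at h1
      have h4 : (0 : ℝ) ≤ (n : ℝ) + 1 := by positivity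
      have h5 := mul_le_mul_of_nonneg_left (h2.trans h1) h4
      beta_reduce
      linarith
    exact e0.max e2
  L0 := by positivity

lemma tau_nonneg (n : ℕ) (t : ℝ) : 0 ≤ tau n t := le_max_left _ _

lemma continuous_tau (n : ℕ) : Continuous (tau n) := by unfold tau; fun_prop

lemma tau_supp {n : ℕ} {t : ℝ} (h : tau n t ≠ 0) : |t| ≤ 1 / ((n : ℝ) + 1) := by
  by_contra hcon
  push Not at hcon
  apply h
  unfold tau
  apply max_eq_left
  rw [div_lt_iff₀ (by positivity)] at hcon
  linarith

variable {d : ℕ}

/-- the product weight on `Fin d → ℝ` -/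
noncomputable def wt (n : ℕ) (z : Fin d → ℝ) : ℝ := ∏ j, tau n (z j)

lemma wt_nonneg (n : ℕ) (z : Fin d → ℝ) : 0 ≤ wt n z := Finset.prod_nonneg (fun _ _ => tau_nonneg _ _)

lemma continuous_wt (n : ℕ) : Continuous (wt n : (Fin d → ℝ) → ℝ) := by
  unfold wt
  apply continuous_finsetProd
  intro j _
  exact (continuous_tau n).comp (continuous_apply j)

lemma wt_supp {n : ℕ} {z : Fin d → ℝ} (h : wt n z ≠ 0) (j : Fin d) : |z j| ≤ 1 / ((n : ℝ) + 1) := by
  apply tau_supp
  intro h0
  exact h (Finset.prod_eq_zero (Finset.mem_univ j) h0)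

lemma hasCompactSupport_wt (n : ℕ) : HasCompactSupport (wt n : (Fin d → ℝ) → ℝ) := by
  apply HasCompactSupport.of_support_subset_isCompact (isCompact_closedBall (0 : Fin d → ℝ) (1 / ((n : ℝ) + 1)))
  intro z hz
  rw [mem_closedBall_zero_iff, pi_norm_le_iff_of_nonneg (by positivity)]
  intro j
  exact wt_supp hz j

lemma wt_int_pos (n : ℕ) : 0 < ∫ z : Fin d → ℝ, wt n z := by
  have hint : Integrable (wt n : (Fin d → ℝ) → ℝ) := (continuous_wt n).integrable_of_hasCompactSupport (hasCompactSupport_wt n)
  rw [integral_pos_iff_support_of_nonneg (wt_nonneg n) hint]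
  have hopen : IsOpen (Function.support (wt n : (Fin d → ℝ) → ℝ)) := (continuous_wt n).isOpen_support
  refine hopen.measure_pos volume ⟨0, ?_⟩
  rw [Function.mem_support]
  unfold wt tau
  simp

section
variable {γ : FreeSpace (VV d)}

/-- the product functions -/
noncomputable def prodf (A : Fin d → ℝ → ℝ) (x : VV d) : ℝ := ∏ j, A j (x j)

lemma NN_compact1 (hγ : ∀ (A : Fin d → ℝ → ℝ) (L : Fin d → ℝ), (∀ j, Cut (A j) (L j)) → NN γ (prodf A))
    {f : VV d → ℝ} {K : ℝ} (hf : LK K f) {R : ℝ} (hR : ∀ x : VV d, R < ‖x‖ → f x = 0) : NN γ f := by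
  -- the function on `Fin d → ℝ`
  set f' : (Fin d → ℝ) → ℝ := fun z => f (WithLp.toLp 1 z) with hf'
  have hcto : Continuous (fun z : Fin d → ℝ => (WithLp.toLp 1 z : VV d)) := PiLp.continuous_toLp 1 _
  have hf'c : Continuous f' := hf.continuous.comp hcto
  have hf's : HasCompactSupport f' := by
    apply HasCompactSupport.of_support_subset_isCompact (isCompact_closedBall (0 : Fin d → ℝ) (max R 0))
    intro z hz
    rw [mem_closedBall_zero_iff, pi_norm_le_iff_of_nonneg (le_max_right _ _)]
    intro j
    by_contra hcon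
    push Not at hcon
    apply hz
    apply hR
    refine lt_of_lt_of_le ((le_max_left R 0).trans_lt hcon) ?_
    rw [PiLp.norm_eq_of_L1]
    exact Finset.single_le_sum (f := fun j => ‖z j‖) (fun _ _ => norm_nonneg _) (Finset.mem_univ j)
  have hK : 0 ≤ |K| := abs_nonneg K
  have hfK : LK |K| f := hf.mono (le_abs_self K)
  -- integrability
  have hZ : ∀ n : ℕ, 0 < ∫ z : Fin d → ℝ, wt n z := fun n => wt_int_pos n
  have hwi : ∀ n : ℕ, Integrable (wt n : (Fin d → ℝ) → ℝ) := fun n =>
    (continuous_wt n).integrable_of_hasCompactSupport (hasCompactSupport_wt n)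
  have hint2 : ∀ (n : ℕ) (x : VV d), Integrable (fun z : Fin d → ℝ => f' (x.ofLp - z) * wt n z) := by
    intro n x
    apply Continuous.integrable_of_hasCompactSupport
    · exact (hf'c.comp (continuous_const.sub continuous_id)).mul (continuous_wt n)
    · exact (hasCompactSupport_wt n).mul_left
  have hint1 : ∀ (n : ℕ) (x : VV d), Integrable (fun z : Fin d → ℝ => f' z * wt n (x.ofLp - z)) := by
    intro n x
    apply Continuous.integrable_of_hasCompactSupport
    · exact hf'c.mul ((continuous_wt n).comp (continuous_const.sub continuous_id))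
    · exact hf's.mul_right
  -- the two expressions
  have hsub : ∀ (n : ℕ) (x : VV d), ∫ z : Fin d → ℝ, f' z * wt n (x.ofLp - z) =
      ∫ z : Fin d → ℝ, f' (x.ofLp - z) * wt n z := by
    intro n x
    rw [← integral_sub_left_eq_self (fun z => f' z * wt n (x.ofLp - z)) volume x.ofLp]
    congr 1
    funext z
    rw [sub_sub_cancel]
  apply NN.seq (K := |K|) (f := fun n (x : VV d) => (∫ z : Fin d → ℝ, wt n z)⁻¹ * ∫ z : Fin d → ℝ, f' z * wt n (x.ofLp - z))
  · intro n
    apply NN.const_mul
    -- integral of products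
    obtain ⟨B, hB⟩ : ∃ B : ℝ, ∀ A : Fin d → ℝ → ℝ, (∀ j, Cut (A j) ((n : ℝ) + 1)) → LK B (prodf A : VV d → ℝ) := by
      refine ⟨(n : ℝ) + 1, fun A hA => ?_⟩
      apply LK_of_coord
      intro x i u v
      have e1 : ∀ w, prodf A (st x i w) = A i w * ∏ j ∈ Finset.univ.erase i, A j (x j) := by
        intro w
        unfold prodf
        rw [← Finset.mul_prod_erase _ _ (Finset.mem_univ i), st_same]
        congr 1
        apply Finset.prod_congr rfl
        intro j hj
        rw [st_ne _ (Finset.ne_of_mem_erase hj)]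
      rw [e1, e1, ← sub_mul, abs_mul]
      have e2 := (hA i).lk.abs u v
      rw [Real.dist_eq] at e2
      have e3 : |∏ j ∈ Finset.univ.erase i, A j (x j)| ≤ 1 := by
        rw [Finset.abs_prod]
        apply Finset.prod_le_one
        · intro j _; exact abs_nonneg _
        · intro j _; exact (hA j).abs_le_one _
      calc |A i u - A i v| * |∏ j ∈ Finset.univ.erase i, A j (x j)| ≤ (((n : ℝ) + 1) * |u - v|) * 1 :=
            mul_le_mul e2 e3 (abs_nonneg _) (by positivity)
        _ = ((n : ℝ) + 1) * |u - v| := mul_one _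
    have hprod : ∀ z : Fin d → ℝ, (fun x : VV d => wt n (x.ofLp - z)) = prodf (fun j t => tau n (t - z j)) := by
      intro z
      funext x
      rfl
    apply NN.int (K := fun z => |f' z| * B)
    · exact (hf'c.integrable_of_hasCompactSupport hf's).abs.mul_const B
    · intro z
      have := (hB (fun j t => tau n (t - z j)) (fun j => tau_cut n (z j))).const_mul (f' z)
      rw [← hprod] at this
      exact this
    · intro x
      exact hint1 n x
    · intro z
      have := (hγ (fun j t => tau n (t - z j)) (fun _ => (n : ℝ) + 1) (fun j => tau_cut n (z j))).const_mul (f' z)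
      rw [← hprod] at this
      exact this
  · intro n x y
    beta_reduce
    rw [hsub, hsub, ← mul_sub, ← integral_sub (hint2 n x) (hint2 n y), inv_mul_le_iff₀ (hZ n)]
    calc ∫ z : Fin d → ℝ, (f' (x.ofLp - z) * wt n z - f' (y.ofLp - z) * wt n z)
        ≤ ∫ z : Fin d → ℝ, |K| * dist x y * wt n z := by
          apply integral_mono ((hint2 n x).sub (hint2 n y)) ((hwi n).const_mul _)
          intro z
          have h1 := hfK (x - WithLp.toLp 1 z) (y - WithLp.toLp 1 z)
          rw [dist_sub_right] at h1
          have h2 : f' (x.ofLp - z) - f' (y.ofLp - z) ≤ |K| * dist x y := h1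
          show f' (x.ofLp - z) * wt n z - f' (y.ofLp - z) * wt n z ≤ |K| * dist x y * wt n z
          rw [← sub_mul]
          exact mul_le_mul_of_nonneg_right h2 (wt_nonneg n z)
      _ = (∫ z : Fin d → ℝ, wt n z) * (|K| * dist x y) := by
          rw [integral_const_mul]; ring
  · -- pointwise convergence
    have key : ∀ x : VV d, Tendsto (fun n : ℕ => (∫ z : Fin d → ℝ, wt n z)⁻¹ * ∫ z : Fin d → ℝ, f' z * wt n (x.ofLp - z))
        atTop (𝓝 (f x)) := by
      intro x
      rw [tendsto_iff_dist_tendsto_zero]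
      have h2 : Tendsto (fun n : ℕ => |K| * d * (1 / ((n : ℝ) + 1))) atTop (𝓝 (|K| * d * 0)) :=
        tendsto_one_div_add_atTop_nhds_zero_nat.const_mul _
      rw [mul_zero] at h2
      refine squeeze_zero (fun n => dist_nonneg) (fun n => ?_) h2
      rw [Real.dist_eq, hsub]
      have e1 : (∫ z : Fin d → ℝ, wt n z)⁻¹ * (∫ z : Fin d → ℝ, f' (x.ofLp - z) * wt n z) - f x =
          (∫ z : Fin d → ℝ, wt n z)⁻¹ * ∫ z : Fin d → ℝ, (f' (x.ofLp - z) - f x) * wt n z := by
        have : ∫ z : Fin d → ℝ, (f' (x.ofLp - z) - f x) * wt n z =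
            (∫ z : Fin d → ℝ, f' (x.ofLp - z) * wt n z) - f x * ∫ z : Fin d → ℝ, wt n z := by
          rw [← integral_const_mul, ← integral_sub (hint2 n x) ((hwi n).const_mul _)]
          congr 1
          funext z
          ring
        rw [this, mul_sub]
        have := (hZ n).ne'
        field_simp
      rw [e1, abs_mul, abs_of_pos (inv_pos.2 (hZ n)), inv_mul_le_iff₀ (hZ n)]
      have e2 : |∫ z : Fin d → ℝ, (f' (x.ofLp - z) - f x) * wt n z| ≤
          ∫ z : Fin d → ℝ, |K| * d * (1 / ((n : ℝ) + 1)) * wt n z := by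
        rw [← Real.norm_eq_abs]
        apply norm_integral_le_of_norm_le ((hwi n).const_mul _)
        filter_upwards with z
        rw [Real.norm_eq_abs, abs_mul, abs_of_nonneg (wt_nonneg n z)]
        by_cases hz : wt n z = 0
        · rw [hz]; simp
        · apply mul_le_mul_of_nonneg_right _ (wt_nonneg n z)
          have h3 := hfK.abs (x - WithLp.toLp 1 z) x
          have h4 : dist (x - WithLp.toLp 1 z) x ≤ d * (1 / ((n : ℝ) + 1)) := by
            rw [dist_l1]
            calc ∑ i, |(x - WithLp.toLp 1 z) i - x i| = ∑ i, |z i| := by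
                  apply Finset.sum_congr rfl
                  intro i _
                  have : (x - WithLp.toLp 1 z) i - x i = -(z i) := by
                    rw [PiLp.sub_apply]
                    show x i - z i - x i = -(z i)
                    ring
                  rw [this, abs_neg]
              _ ≤ ∑ _i : Fin d, 1 / ((n : ℝ) + 1) := Finset.sum_le_sum (fun i _ => wt_supp hz i)
              _ = d * (1 / ((n : ℝ) + 1)) := by simp
          calc |f' (x.ofLp - z) - f x| ≤ |K| * dist (x - WithLp.toLp 1 z) x := h3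
            _ ≤ |K| * (d * (1 / ((n : ℝ) + 1))) := mul_le_mul_of_nonneg_left h4 hK
            _ = |K| * d * (1 / ((n : ℝ) + 1)) := by ring
      refine e2.trans (le_of_eq ?_)
      rw [integral_const_mul]; ring
    intro x y
    exact (key x).sub (key y)

theorem NN_all1 (hγ : ∀ (A : Fin d → ℝ → ℝ) (L : Fin d → ℝ), (∀ j, Cut (A j) (L j)) → NN γ (prodf A))
    {f : VV d → ℝ} {K : ℝ} (hf : LK K f) : NN γ f := by
  -- normalise
  wlog h0 : f 0 = 0 generalizing f
  · have h1 : NN γ (fun x => f x + (- f 0)) := this (hf.add_const _) (by ring)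
    exact h1.congr (fun x y => by ring)
  wlog hK : 0 ≤ K generalizing K
  · exact this (K := max K 0) (hf.mono (le_max_left _ _)) (le_max_right _ _)
  set h : ℕ → VV d → ℝ := fun n x => max (2 * K * n - K * ‖x‖) 0 with hh
  have hL1 : ∀ n, LK K (h n) := by
    intro n
    have e1 : LK K (fun x : VV d => 2 * K * n - K * ‖x‖) := by
      intro x y
      have h2 : ‖y‖ - ‖x‖ ≤ dist x y := by
        rw [dist_eq_norm, ← norm_neg (x - y), neg_sub]
        exact norm_sub_norm_le y x
      have h3 := mul_le_mul_of_nonneg_left h2 hK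
      linarith
    have e2 : LK K (fun _ : VV d => (0 : ℝ)) := fun x y => by
      have : 0 ≤ K * dist x y := mul_nonneg hK dist_nonneg
      linarith
    exact e1.max e2
  apply NN.seq (K := K) (f := fun n x => max (min (f x) (h n x)) (- h n x))
  · intro n
    apply NN_compact1 hγ ((hf.min (hL1 n)).max (hL1 n).neg) (R := 2 * n)
    intro x hx
    have h2 : h n x = 0 := by
      rw [hh]
      simp only
      apply max_eq_right
      nlinarith
    rw [h2, neg_zero]
    exact max_eq_right (min_le_right _ _)
  · intro n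
    exact (hf.min (hL1 n)).max (hL1 n).neg
  · intro x y
    have key : ∀ z : VV d, ∀ᶠ n : ℕ in atTop, max (min (f z) (h n z)) (- h n z) = f z := by
      intro z
      obtain ⟨N, hN⟩ := exists_nat_ge ‖z‖
      filter_upwards [eventually_ge_atTop N] with n hn
      have hn' : (N : ℝ) ≤ n := by exact_mod_cast hn
      have h2 : |f z| ≤ K * ‖z‖ := by
        have := hf.abs z 0
        rwa [h0, sub_zero, dist_zero_right] at this
      have h3 : |f z| ≤ h n z := by
        rw [hh]
        simp only
        refine le_trans ?_ (le_max_left _ _)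
        nlinarith
      rw [abs_le] at h3
      rw [min_eq_left h3.2, max_eq_left h3.1]
    apply tendsto_const_nhds.congr'
    filter_upwards [key x, key y] with n h1 h2
    rw [h1, h2]

/-- The product functions are total. -/
theorem eq_zero_of_prod (hγ : ∀ (A : Fin d → ℝ → ℝ) (L : Fin d → ℝ), (∀ j, Cut (A j) (L j)) → NN γ (prodf A)) :
    γ = 0 := by
  apply eq_zero_of_fn
  intro f K hf
  exact (NN_all1 hγ hf).2

end

end Pool.Agent.W2helper23.LR1
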