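import Mathlib
import Pool.Agent.W2helper23.LR1.Total

set_option autoImplicit false

open MeasureTheory Set Filter Topology

namespace Pool.Agent.W2helper23.LR1

open Pool.Agent.Helper23K9.LR

variable {d : ℕ} {S : Rel (VV d)}

/-- An affine normal form for the local data. -/
structure Aff (S : Rel (VV d)) (κ : ℝ) (c : Fin d → ℝ) where
  D : ∀ i, Data S i
  ne : κ ≠ 0
  aff : ∀ i, ∀ᵐ u, (D i).B u = κ * u + c i

theorem exists_aff (S : Rel (VV d)) (hd : 2 ≤ d) : ∃ κ c, Nonempty (Aff S κ c) := by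
  have D : ∀ i, Data S i := fun i => Classical.choice (exists_data S i)
  set i0 : Fin d := ⟨0, by omega⟩
  set i1 : Fin d := ⟨1, by omega⟩
  have h10 : i1 ≠ i0 := by
    intro h
    have := congrArg Fin.val h
    simp [i0, i1] at this
  obtain ⟨κ, c0, c1, hκ, h0, h1⟩ := affine_pair h10 (D i1) (D i0)
  have hall : ∀ i, ∃ c, ∀ᵐ u, (D i).B u = κ * u + c := by
    intro i
    by_cases hi : i = i0
    · subst hi; exact ⟨c0, h0⟩
    · obtain ⟨κ', c0', c', hκ', h0', h'⟩ := affine_pair hi (D i) (D i0)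
      have : κ = κ' ∧ c0 = c0' := by
        apply affine_uniq
        filter_upwards [h0, h0'] with u e1 e2
        rw [← e1, ← e2]
      rw [this.1]
      exact ⟨c', h'⟩
  choose c hc using hall
  exact ⟨κ, c, ⟨⟨D, hκ, hc⟩⟩⟩

variable {κ : ℝ} {c : Fin d → ℝ}

/-- functions of one coordinate -/
lemma one_var (hd : 2 ≤ d) (F : Aff S κ c) (k : Fin d) {A : ℝ → ℝ} {LA : ℝ} (hA : Cut A LA) :
    S.R (fun x : VV d => κ⁻¹ * A (κ * x k + c k)) (fun y => A (bb S k y)) := by
  have hκ := F.ne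
  obtain ⟨i, hik⟩ : ∃ i : Fin d, i ≠ k := by
    by_cases h : k = ⟨0, by omega⟩
    · refine ⟨⟨1, by omega⟩, ?_⟩
      rw [h]
      intro h
      have := congrArg Fin.val h
      simp at this
    · exact ⟨⟨0, by omega⟩, fun h' => h h'.symm⟩
  obtain ⟨FA, hFA⟩ := exists_ridge S hA.lk k
  have LFA : LK LA FA := LK_of_comp_coord k ((S.iso hFA LA).2 (LK_comp_bb S hA.L0 hA.lk k))
  choose U V hU hV hUV using fun n : ℕ => fe hik (F.D i) (F.D k) hA (An_cut n) hFA ((F.D i).R_Fn n)
  have hU' : ∀ᵐ u, ∀ n, u ∈ U n := by rw [ae_all_iff]; exact hU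
  have hV' : ∀ᵐ v, ∀ n, v ∈ V n := by rw [ae_all_iff]; exact hV
  -- two different good points
  obtain ⟨v, v', ⟨hv, bv⟩, ⟨hv', bv'⟩, hvv⟩ : ∃ v v', ((∀ n, v ∈ V n) ∧ (F.D i).B v = κ * v + c i) ∧
      ((∀ n, v' ∈ V n) ∧ (F.D i).B v' = κ * v' + c i) ∧ v' - v ≠ 0 := by
    obtain ⟨v, h1, h2⟩ := ((hV'.and (F.aff i)).and (ae_shift (hV'.and (F.aff i)) 1)).exists
    exact ⟨v, v + 1, h1, h2, by ring_nf; exact one_ne_zero⟩
  have key : ∀ u u', ((∀ n, u ∈ U n) ∧ (F.D k).B u = κ * u + c k) → ((∀ n, u' ∈ U n) ∧ (F.D k).B u' = κ * u' + c k) →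
      A (κ * u' + c k) - A (κ * u + c k) = κ * (FA u' - FA u) := by
    rintro u u' ⟨hu, bu⟩ ⟨hu', bu'⟩
    have l1 : Tendsto (fun n : ℕ => (A ((F.D k).B u') - A ((F.D k).B u)) *
        (2 * ((n : ℝ) + 1) * ((F.D i).Fn n v' - (F.D i).Fn n v))) atTop
        (𝓝 ((A ((F.D k).B u') - A ((F.D k).B u)) * (v' - v))) :=
      ((F.D i).Fn_lim v' v).const_mul _
    have l2 : Tendsto (fun n : ℕ => (2 * ((n : ℝ) + 1) * (An n ((F.D i).B v') - An n ((F.D i).B v))) *
        (FA u' - FA u)) atTop (𝓝 (((F.D i).B v' - (F.D i).B v) * (FA u' - FA u))) :=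
      (tendsto_const_nhds.congr' ((An_lim _ _).mono fun n hn => hn.symm)).mul_const _
    have h3 : (A ((F.D k).B u') - A ((F.D k).B u)) * (v' - v) = ((F.D i).B v' - (F.D i).B v) * (FA u' - FA u) := by
      refine tendsto_nhds_unique l1 (l2.congr (fun n => ?_))
      have := hUV n u (hu n) u' (hu' n) v (hv n) v' (hv' n)
      calc (2 * ((n : ℝ) + 1) * (An n ((F.D i).B v') - An n ((F.D i).B v))) * (FA u' - FA u)
          = (2 * ((n : ℝ) + 1)) * ((An n ((F.D i).B v') - An n ((F.D i).B v)) * (FA u' - FA u)) := by ring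
        _ = (2 * ((n : ℝ) + 1)) * ((A ((F.D k).B u') - A ((F.D k).B u)) * ((F.D i).Fn n v' - (F.D i).Fn n v)) := by
            rw [this]
        _ = _ := by ring
    rw [bu, bu', bv, bv'] at h3
    have h4 : (A (κ * u' + c k) - A (κ * u + c k)) * (v' - v) = (κ * (FA u' - FA u)) * (v' - v) := by
      rw [h3]; ring
    exact mul_right_cancel₀ hvv h4
  -- everywhere
  have hall : ∀ u u', A (κ * u' + c k) - κ * FA u' = A (κ * u + c k) - κ * FA u := by
    obtain ⟨u0, hu0⟩ := (hU'.and (F.aff k)).exists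
    have hc1 : Continuous (fun u => A (κ * u + c k) - κ * FA u) := by
      have := hA.lk.continuous
      have := LFA.continuous
      fun_prop
    have hdense : Dense {u | (∀ n, u ∈ U n) ∧ (F.D k).B u = κ * u + c k} :=
      Measure.dense_of_ae (hU'.and (F.aff k))
    have h1 : (fun u => A (κ * u + c k) - κ * FA u) = fun _ => A (κ * u0 + c k) - κ * FA u0 := by
      apply Continuous.ext_on hdense hc1 continuous_const
      intro u hu
      have := key u0 u hu0 hu
      beta_reduce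
      linarith
    intro u u'
    have e1 := congrFun h1 u
    have e2 := congrFun h1 u'
    beta_reduce at e1 e2
    rw [e1, e2]
  refine S.congr hFA (fun x y => ?_) (fun _ _ => rfl)
  have h1 := hall (x k) (y k)
  have h2 : κ * (FA (x k) - FA (y k)) = A (κ * x k + c k) - A (κ * y k + c k) := by linarith
  beta_reduce
  rw [← mul_sub, ← h2, ← mul_assoc, inv_mul_cancel₀ hκ, one_mul]

/-- partial products -/
lemma cut_prod (S : Rel (VV d)) (A : Fin d → ℝ → ℝ) {L : Fin d → ℝ} (hA : ∀ j, Cut (A j) (L j)) (s : Finset (Fin d)) :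
    ∃ L', Cut (fun y : VV d => ∏ j ∈ s, A j (bb S j y)) L' := by
  classical
  induction s using Finset.induction_on with
  | empty =>
    refine ⟨0, ⟨fun y => by simp, fun y => by simp, fun x y => by simp, le_rfl⟩⟩
  | insert i s hi ih =>
    obtain ⟨L', h⟩ := ih
    simp only [Finset.prod_insert hi]
    exact ⟨_, (cut_bb (hA i) S i).mul h⟩

/-- the increments of the preimage of a product -/
lemma prod_incr (hd : 2 ≤ d) (F : Aff S κ c) (A : Fin d → ℝ → ℝ) {L : Fin d → ℝ} (hA : ∀ j, Cut (A j) (L j))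
    (i : Fin d) (s : Finset (Fin d)) (hs : i ∉ s) (f : VV d → ℝ)
    (hf : S.R f (fun y => A i (bb S i y) * ∏ j ∈ s, A j (bb S j y))) (x : VV d) (v0 v1 : ℝ) :
    f (st x i v1) - f (st x i v0) = (∏ j ∈ s, A j (κ * x j + c j)) *
      (κ⁻¹ * A i (κ * v1 + c i) - κ⁻¹ * A i (κ * v0 + c i)) := by
  classical
  induction s using Finset.induction_on generalizing f x with
  | empty =>
    simp only [Finset.prod_empty, mul_one] at hf
    have h1 := Rel.uniq' hf (one_var hd F i (hA i)) (st x i v1) (st x i v0)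
    simp only [st_same] at h1
    rw [h1]; simp
  | insert k s hk ih =>
    have hik : i ≠ k := fun h => hs (by rw [h]; exact Finset.mem_insert_self _ _)
    have his : i ∉ s := fun h => hs (Finset.mem_insert_of_mem h)
    obtain ⟨L', hL'⟩ := cut_prod S A hA s
    have hH : Cut (fun y : VV d => A i (bb S i y) * ∏ j ∈ s, A j (bb S j y)) (L i + L') :=
      (cut_bb (hA i) S i).mul hL'
    obtain ⟨fH, hfH⟩ := S.surj _ ⟨_, hH.lk⟩
    have hf' : S.R f (fun y => A k (bb S k y) * (A i (bb S i y) * ∏ j ∈ s, A j (bb S j y))) := by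
      refine S.congr hf (fun _ _ => rfl) (fun y y' => ?_)
      rw [Finset.prod_insert hk, Finset.prod_insert hk]
      ring
    have hm := modl_all hik (F.D k) (hA k) hH hfH hf' x
    have hih := fun z => ih his fH hfH z
    -- the identity for almost every value of the `k`-th coordinate
    have hae : ∀ᵐ u, f (st (st x k u) i v1) - f (st (st x k u) i v0) = A k (κ * u + c k) *
        ((∏ j ∈ s, A j (κ * x j + c j)) * (κ⁻¹ * A i (κ * v1 + c i) - κ⁻¹ * A i (κ * v0 + c i))) := by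
      filter_upwards [hm, F.aff k] with u hu hB
      rw [hu v0 v1, hB, hih (st x k u)]
      congr 2
      apply Finset.prod_congr rfl
      intro j hj
      rw [st_ne _ (fun h => hk (by rw [← h]; exact hj))]
    have hcf : Continuous f := continuous_of_R hf' ((cut_bb (hA k) S k).mul hH).lk
    have hfun : (fun u => f (st (st x k u) i v1) - f (st (st x k u) i v0)) = fun u => A k (κ * u + c k) *
        ((∏ j ∈ s, A j (κ * x j + c j)) * (κ⁻¹ * A i (κ * v1 + c i) - κ⁻¹ * A i (κ * v0 + c i))) := by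
      apply Continuous.ext_on (Measure.dense_of_ae hae)
      · have h1 : ∀ v, Continuous (fun u => f (st (st x k u) i v)) := by
          intro v
          have e : (fun u => f (st (st x k u) i v)) = fun u => f (st (st x i v) k u) := by
            funext u
            rw [st_comm x hik.symm]
          rw [e]
          exact hcf.comp (continuous_st _ k)
        exact (h1 v1).sub (h1 v0)
      · have := (hA k).lk.continuous
        fun_prop
      · intro u hu
        exact hu
    have h1 := congrFun hfun (x k)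
    beta_reduce at h1
    rw [st_self] at h1
    rw [h1, Finset.prod_insert hk]
    ring

/-- the product formula -/
theorem R_prod (hd : 2 ≤ d) (F : Aff S κ c) (A : Fin d → ℝ → ℝ) {L : Fin d → ℝ} (hA : ∀ j, Cut (A j) (L j)) :
    S.R (fun x : VV d => κ⁻¹ * ∏ j, A j (κ * x j + c j)) (fun y => ∏ j, A j (bb S j y)) := by
  classical
  obtain ⟨L', hL'⟩ := cut_prod S A hA Finset.univ
  obtain ⟨f, hf⟩ := S.surj _ ⟨_, hL'.lk⟩
  refine S.congr hf (fun x y => ?_) (fun _ _ => rfl)
  have h1 := coord_bound (f := fun x => f x - κ⁻¹ * ∏ j, A j (κ * x j + c j)) (fun _ => 0) (by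
    intro x i u v
    have hf' : S.R f (fun y => A i (bb S i y) * ∏ j ∈ Finset.univ.erase i, A j (bb S j y)) := by
      refine S.congr hf (fun _ _ => rfl) (fun y y' => ?_)
      rw [Finset.mul_prod_erase _ (fun j => A j (bb S j y)) (Finset.mem_univ i),
        Finset.mul_prod_erase _ (fun j => A j (bb S j y')) (Finset.mem_univ i)]
    have h2 := prod_incr hd F A hA i (Finset.univ.erase i) (Finset.notMem_erase _ _) f hf' x v u
    have e1 : ∀ w, ∏ j, A j (κ * (st x i w) j + c j) = A i (κ * w + c i) *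
        ∏ j ∈ Finset.univ.erase i, A j (κ * x j + c j) := by
      intro w
      rw [← Finset.mul_prod_erase _ _ (Finset.mem_univ i), st_same]
      congr 1
      apply Finset.prod_congr rfl
      intro j hj
      rw [st_ne _ (Finset.ne_of_mem_erase hj)]
    beta_reduce
    rw [e1, e1]
    have e2 : f (st x i u) - κ⁻¹ * (A i (κ * u + c i) * ∏ j ∈ Finset.univ.erase i, A j (κ * x j + c j)) -
        (f (st x i v) - κ⁻¹ * (A i (κ * v + c i) * ∏ j ∈ Finset.univ.erase i, A j (κ * x j + c j))) = 0 := by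
      linear_combination h2
    rw [e2]; simp) x y
  simp only [zero_mul, Finset.sum_const_zero] at h1
  have := abs_eq_zero.1 (le_antisymm h1 (abs_nonneg _))
  linarith

/-- Cuts composed with affine maps -/
lemma cut_comp {A : ℝ → ℝ} {L : ℝ} (hA : Cut A L) (κ c : ℝ) : Cut (fun t => A (κ⁻¹ * (t - c))) (L * |κ⁻¹|) where
  nn := fun _ => hA.nn _
  le := fun _ => hA.le _
  lk := by
    intro x y
    have := hA.lk (κ⁻¹ * (x - c)) (κ⁻¹ * (y - c))
    rw [Real.dist_eq] at this ⊢
    have e : κ⁻¹ * (x - c) - κ⁻¹ * (y - c) = κ⁻¹ * (x - y) := by ring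
    rw [e, abs_mul] at this
    beta_reduce
    linarith
  L0 := mul_nonneg hA.L0 (abs_nonneg _)

theorem exists_psi1 (hd : 2 ≤ d) (T : FreeSpace (VV d) ≃ₗᵢ[ℝ] FreeSpace (VV d)) :
    ∃ (κ : ℝ) (Ψ : VV d → VV d), κ ≠ 0 ∧ ∀ p q, T (mol p q) = κ • mol (Ψ p) (Ψ q) := by
  obtain ⟨κ, c, ⟨F⟩⟩ := exists_aff (relOf T) hd
  have hκ := F.ne
  set Ψ : VV d → VV d := fun p => WithLp.toLp 1 (fun j => κ⁻¹ * (bb (relOf T) j p - c j)) with hΨ
  refine ⟨κ, Ψ, hκ, fun p q => ?_⟩
  rw [← sub_eq_zero]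
  apply eq_zero_of_prod
  intro A L hA
  have h1 := R_prod hd F (fun j t => A j (κ⁻¹ * (t - c j))) (fun j => cut_comp (hA j) κ (c j))
  have e1 : (fun x : VV d => κ⁻¹ * ∏ j, A j (κ⁻¹ * (κ * x j + c j - c j))) = fun x => κ⁻¹ * prodf A x := by
    funext x
    congr 1
    apply Finset.prod_congr rfl
    intro j _
    congr 1
    field_simp
    ring
  rw [e1] at h1
  have h2 := Rel.smul h1 κ
  have e2 : (fun x : VV d => κ * (κ⁻¹ * prodf A x)) = prodf A := by
    funext x
    rw [← mul_assoc, mul_inv_cancel₀ hκ, one_mul]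
  rw [e2] at h2
  obtain ⟨⟨K, hK⟩, ⟨K', hK'⟩, h4⟩ := h2
  refine ⟨⟨K, hK⟩, ?_⟩
  have h5 := h4 (mol p q)
  rw [fn_mol hK'] at h5
  rw [map_sub, map_smul, fn_mol hK, ← h5, smul_eq_mul]
  have e3 : ∀ z, prodf A (Ψ z) = ∏ j, A j (κ⁻¹ * (bb (relOf T) j z - c j)) := fun z => rfl
  rw [e3, e3]
  ring

/-- `ℝ^d` with the Manhattan distance is Lipschitz-free rigid for `d ≥ 2`. -/
theorem rigid1 (hd : 2 ≤ d) : LipFreeRigid (VV d) := by
  apply rigid_of_psi
  · intro p
    refine ⟨st p ⟨0, by omega⟩ (p ⟨0, by omega⟩ + 1), fun h => ?_⟩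
    have := congrArg (fun z : VV d => z ⟨0, by omega⟩) h
    simp at this
  · exact exists_psi1 hd

end Pool.Agent.W2helper23.LR1
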